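import Pool.Agent.MP_542436_nt.H96.REA
import Pool.Agent.MP_542436_nt.H96.BOX

/-! The group generated by odd primes and one even number, with its valuations. -/

namespace Pool.Agent.MP_bd9ace_nt.H98

open Pool.Agent.MP_542436_nt.H96 Pool.Agent.MP_542436_nt.H96.REA

/-- the saturation of the group generated by `a` and the members of `P` -/
def Gr (P : Finset ℕ) (hP : ∀ r ∈ P, r.Prime) (a : ℕ) (ha : 0 < a) : Subgroup ℚˣ where
  carrier := {z | ∃ k : ℕ, k ≠ 0 ∧ ∃ (i : ℤ) (e : ℕ → ℤ),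
    (z : ℚ) ^ k = (a : ℚ) ^ i * ∏ r ∈ P, (r : ℚ) ^ e r}
  one_mem' := ⟨1, one_ne_zero, 0, 0, by simp⟩
  mul_mem' := by
    rintro x y ⟨k, hk, i, e, h⟩ ⟨k', hk', i', e', h'⟩
    have ha' : (a : ℚ) ≠ 0 := by exact_mod_cast ha.ne'
    refine ⟨k * k', mul_ne_zero hk hk', i * k' + i' * k, fun r => e r * k' + e' r * k, ?_⟩
    rw [Units.val_mul, mul_pow, pow_mul, mul_comm k k', pow_mul (y : ℚ), h, h', mul_pow, mul_pow,
      zpow_add₀ ha', zpow_mul, zpow_mul, zpow_natCast, zpow_natCast, ← Finset.prod_pow,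
      ← Finset.prod_pow, mul_mul_mul_comm, ← Finset.prod_mul_distrib]
    congr 1
    refine Finset.prod_congr rfl fun r hr => ?_
    have hr' : (r : ℚ) ≠ 0 := by exact_mod_cast (hP r hr).ne_zero
    rw [zpow_add₀ hr', zpow_mul, zpow_mul, zpow_natCast, zpow_natCast]
  inv_mem' := by
    rintro x ⟨k, hk, i, e, h⟩
    refine ⟨k, hk, -i, fun r => -e r, ?_⟩
    rw [Units.val_inv_eq_inv_val, inv_pow, h, mul_inv, zpow_neg, ← Finset.prod_inv_distrib]
    simp only [zpow_neg]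

theorem gr_sat {P : Finset ℕ} (hP : ∀ r ∈ P, r.Prime) {a : ℕ} (ha : 0 < a) (z : ℚˣ) (k : ℕ)
    (hk : k ≠ 0) (h : z ^ k ∈ Gr P hP a ha) : z ∈ Gr P hP a ha := by
  obtain ⟨k', hk', i, e, h⟩ := h
  exact ⟨k * k', mul_ne_zero hk hk', i, e, by rw [pow_mul, ← h, Units.val_pow_eq_pow_val]⟩

/-- the valuations at the listed primes -/
noncomputable def Ph {n : ℕ} (f : Fin n → ℕ) (hf : ∀ i, (f i).Prime) (G : Subgroup ℚˣ) :
    Additive G →+ (Fin n → ℝ) :=
  AddMonoidHom.mk' (fun z i => (padicValRat (f i) (((z.toMul : G) : ℚˣ) : ℚ) : ℝ)) fun x y => by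
    funext i
    have : Fact (f i).Prime := ⟨hf i⟩
    simp only [toMul_add, Subgroup.coe_mul, Units.val_mul, Pi.add_apply]
    rw [padicValRat.mul (Units.ne_zero _) (Units.ne_zero _), Int.cast_add]

theorem ph_le {n : ℕ} (f : Fin n → ℕ) (hf : ∀ i, (f i).Prime) (G : Subgroup ℚˣ) (z : ℚˣ)
    (h : z ∈ G) {t : ℝ} (ht : 0 ≤ t) (hz : ∀ r : ℕ, r.Prime → |(padicValRat r (z : ℚ) : ℝ)| ≤ t) :
    ‖Ph f hf G (Additive.ofMul ⟨z, h⟩)‖ ≤ t :=
  (pi_norm_le_iff_of_nonneg ht).2 fun i => hz _ (hf i)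

theorem val_form (p : ℕ) (hp : p.Prime) {P : Finset ℕ} (hP : ∀ r ∈ P, r.Prime) {a : ℕ}
    (ha : 0 < a) (i : ℤ) (e : ℕ → ℤ) :
    padicValRat p ((a : ℚ) ^ i * ∏ r ∈ P, (r : ℚ) ^ e r) =
      i * padicValNat p a + if p ∈ P then e p else 0 := by
  have : Fact p.Prime := ⟨hp⟩
  have ha' : (a : ℚ) ≠ 0 := by exact_mod_cast ha.ne'
  rw [padicValRat.mul (zpow_ne_zero _ ha') (Finset.prod_ne_zero_iff.2 fun r hr =>
    zpow_ne_zero _ (by exact_mod_cast (hP r hr).ne_zero)), val_prod p P hP, padicValRat.zpow,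
    padicValRat.of_nat]

theorem two_val {a : ℕ} (ha : 0 < a) (he : Even a) : padicValNat 2 a ≠ 0 :=
  (one_le_padicValNat_of_dvd ha.ne' he.two_dvd).trans_lt' zero_lt_one |>.ne'

theorem gr_sep {P : Finset ℕ} (hP : ∀ r ∈ P, r.Prime) (h2 : 2 ∉ P) {a : ℕ} (ha : 0 < a)
    (he : Even a) {z : ℚˣ} (hz : z ∈ Gr P hP a ha)
    (h : ∀ r ∈ insert 2 P, padicValRat r (z : ℚ) = 0) : z = 1 ∨ z = -1 := by
  obtain ⟨k, hk, i, e, hz⟩ := hz
  have hv : ∀ r ∈ insert 2 P, (i * padicValNat r a + if r ∈ P then e r else 0) = 0 := by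
    intro r hr
    have hr' : r.Prime := by
      rcases Finset.mem_insert.1 hr with rfl | hr
      · exact Nat.prime_two
      · exact hP r hr
    have : Fact r.Prime := ⟨hr'⟩
    rw [← val_form r hr' hP ha, ← hz, padicValRat.pow, h r hr, mul_zero]
  have hi : i = 0 := by
    have := hv 2 (Finset.mem_insert_self _ _)
    rw [if_neg h2, add_zero] at this
    exact (mul_eq_zero.1 this).resolve_right (by exact_mod_cast two_val ha he)
  have h1 : (z : ℚ) ^ k = 1 := by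
    rw [hz, hi, zpow_zero, one_mul]
    refine Finset.prod_eq_one fun r hr => ?_
    have := hv r (Finset.mem_insert_of_mem hr)
    rw [if_pos hr, hi, zero_mul, zero_add] at this
    rw [this, zpow_zero]
  have h3 : |(z : ℚ)| = 1 := by
    have := congrArg abs h1
    rw [abs_pow, abs_one] at this
    exact (pow_eq_one_iff_of_nonneg (abs_nonneg _) hk).1 this
  rcases (abs_eq zero_le_one).1 h3 with h | h
  · exact Or.inl (Units.ext h)
  · exact Or.inr (Units.ext h)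

theorem ph_sep {P : Finset ℕ} (hP : ∀ r ∈ P, r.Prime) (h2 : 2 ∉ P) {a : ℕ} (ha : 0 < a)
    (he : Even a) {n : ℕ} (f : Fin n → ℕ) (hf : ∀ i, (f i).Prime)
    (hs : ∀ r ∈ insert 2 P, ∃ i, f i = r) (z : Gr P hP a ha)
    (h : ‖Ph f hf _ (Additive.ofMul z)‖ < 1) : (z : ℚˣ) = 1 ∨ (z : ℚˣ) = -1 := by
  refine gr_sep hP h2 ha he z.2 fun r hr => ?_
  obtain ⟨i, rfl⟩ := hs r hr
  have h1 : |(padicValRat (f i) ((z : ℚˣ) : ℚ) : ℝ)| < 1 := (norm_le_pi_norm _ i).trans_lt h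
  have h3 : |padicValRat (f i) ((z : ℚˣ) : ℚ)| < 1 := by exact_mod_cast h1
  exact Int.abs_lt_one_iff.1 h3

theorem val_le {r y : ℕ} (hr : r.Prime) (hy : 0 < y) :
    (padicValNat r y : ℝ) ≤ 2 * Real.log y := by
  have h1 : 2 ^ padicValNat r y ≤ y :=
    (Nat.pow_le_pow_left hr.two_le _).trans (Nat.le_of_dvd hy pow_padicValNat_dvd)
  have h2 : (2 : ℝ) ^ padicValNat r y ≤ y := by exact_mod_cast h1
  have h3 := Real.log_le_log (by positivity) h2
  rw [Real.log_pow] at h3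
  have h4 := Real.log_two_gt_d9
  have h5 : (0 : ℝ) ≤ padicValNat r y := Nat.cast_nonneg _
  nlinarith

theorem val_quo {r y y' : ℕ} (hr : r.Prime) (hy : 0 < y) (hy' : 0 < y') {L : ℝ}
    (h : (y : ℝ) ≤ Real.exp L) (h' : (y' : ℝ) ≤ Real.exp L) :
    |(padicValRat r ((un y / un y' : ℚˣ) : ℚ) : ℝ)| ≤ 2 * L := by
  have : Fact r.Prime := ⟨hr⟩
  rw [Units.val_div_eq_div_val, un_val hy, un_val hy', padicValRat.div
    (by exact_mod_cast hy.ne') (by exact_mod_cast hy'.ne'), padicValRat.of_nat, padicValRat.of_nat]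
  have a1 := val_le hr hy
  have a2 := val_le hr hy'
  have a3 : Real.log y ≤ L := (Real.log_le_iff_le_exp (by exact_mod_cast hy)).2 h
  have a4 : Real.log y' ≤ L := (Real.log_le_iff_le_exp (by exact_mod_cast hy')).2 h'
  have a5 : (0 : ℝ) ≤ padicValNat r y := Nat.cast_nonneg _
  have a6 : (0 : ℝ) ≤ padicValNat r y' := Nat.cast_nonneg _
  rw [Int.cast_sub, Int.cast_natCast, Int.cast_natCast, abs_le]
  constructor <;> linarith

/-- products of small powers -/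
theorem box {P : Finset ℕ} (hP : ∀ r ∈ P, r.Prime) (h2 : 2 ∉ P) {a : ℕ} (ha : 0 < a)
    (he : Even a) {t : ℝ} (ht : 0 ≤ t) :
    ∃ Z : Finset ℕ, t ^ (P.card + 1) ≤ Z.card * (Real.log a * ∏ r ∈ P, Real.log r) ∧
      ∀ z ∈ Z, 0 < z ∧ (z : ℝ) ≤ Real.exp ((P.card + 1 : ℕ) * t) ∧ un z ∈ Gr P hP a ha := by
  classical
  obtain ⟨Z, hZ, hz⟩ := rowBOX P t hP ht
  have ha2 : 2 ≤ a := by obtain ⟨c, rfl⟩ := he; omega
  have hl : 0 < Real.log a := Real.log_pos (by exact_mod_cast ha2)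
  have hodd : ∀ z ∈ Z, padicValNat 2 z = 0 := by
    intro z hzZ
    obtain ⟨-, -, e, rfl⟩ := hz z hzZ
    refine padicValNat.eq_zero_of_not_dvd fun hd => ?_
    obtain ⟨s, hs, hd⟩ := (Prime.dvd_finsetProd_iff Nat.prime_two.prime _).1 hd
    have := (Nat.prime_dvd_prime_iff_eq Nat.prime_two (hP s hs)).1 (Nat.prime_two.dvd_of_dvd_pow hd)
    exact h2 (this ▸ hs)
  refine ⟨(Z ×ˢ Finset.range (⌊t / Real.log a⌋₊ + 1)).image fun x => x.1 * a ^ x.2, ?_, ?_⟩
  · rw [Finset.card_image_of_injOn, Finset.card_product, Finset.card_range, pow_succ]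
    · have h1 : t ≤ ((⌊t / Real.log a⌋₊ + 1 : ℕ) : ℝ) * Real.log a := by
        rw [← div_le_iff₀ hl]
        push_cast
        exact (Nat.lt_floor_add_one _).le
      calc t ^ P.card * t ≤ (Z.card * ∏ s ∈ P, Real.log s) *
            (((⌊t / Real.log a⌋₊ + 1 : ℕ) : ℝ) * Real.log a) :=
            mul_le_mul hZ h1 ht ((pow_nonneg ht _).trans hZ)
        _ = _ := by push_cast; ring
    · rintro ⟨z, i⟩ h ⟨z', j⟩ h' e
      simp only [Finset.coe_product, Set.mem_prod, Finset.mem_coe] at h h'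
      have e' : z * a ^ i = z' * a ^ j := e
      have hij : i = j := by
        have := congrArg (padicValNat 2) e'
        rw [padicValNat.mul (hz z h.1).1.ne' (pow_pos ha _).ne',
          padicValNat.mul (hz z' h'.1).1.ne' (pow_pos ha _).ne', hodd z h.1, hodd z' h'.1,
          padicValNat.pow, padicValNat.pow, zero_add, zero_add] at this
        exact Nat.eq_of_mul_eq_mul_right (Nat.pos_of_ne_zero (two_val ha he)) this
      subst hij
      exact Prod.ext (Nat.eq_of_mul_eq_mul_right (pow_pos ha _) e') rfl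
  · intro y hy
    obtain ⟨⟨z, i⟩, hx, rfl⟩ := Finset.mem_image.1 hy
    obtain ⟨hzZ, hi⟩ := Finset.mem_product.1 hx
    obtain ⟨h0, hle, e, he⟩ := hz z hzZ
    have hpos : 0 < z * a ^ i := Nat.mul_pos h0 (pow_pos ha _)
    refine ⟨hpos, ?_, 1, one_ne_zero, i, fun r => e r, ?_⟩
    · have hi' : (i : ℝ) * Real.log a ≤ t := by
        rw [← le_div_iff₀ hl, ← Nat.le_floor_iff (div_nonneg ht hl.le)]
        exact Nat.lt_succ_iff.1 (Finset.mem_range.1 hi)
      have h2 : ((a : ℝ)) ^ i ≤ Real.exp t := by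
        rw [← Real.exp_log (pow_pos (by exact_mod_cast ha : (0 : ℝ) < a) i), Real.log_pow]
        exact Real.exp_le_exp.2 hi'
      push_cast
      rw [add_mul, one_mul, Real.exp_add]
      exact mul_le_mul hle h2 (by positivity) (Real.exp_pos _).le
    · show ((un (z * a ^ i) : ℚˣ) : ℚ) ^ 1 = _
      rw [un_val hpos, pow_one, he]
      push_cast
      simp only [zpow_natCast]
      ring

end Pool.Agent.MP_bd9ace_nt.H98
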