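import Pool.Agent.MP_bd9ace_nt.H98.Mid
import Pool.Agent.MP_bd9ace_nt.H98.Grp
import Pool.Agent.MP_542436_nt.H96.LOCR
import Pool.Agent.MP_542436_nt.H96.LV
import Pool.Agent.MP_542436_nt.H96.NEW
import Pool.Agent.MP_542436_nt.H96.ARI
import Pool.Agent.MP_542436_nt.H96.P2

/-! A lower bound for linear forms in the logarithms of odd primes and of one even number. -/

namespace Pool.Agent.MP_bd9ace_nt.H98

open Pool.Agent.MP_542436_nt.H96 Pool.Agent.MP_542436_nt.H96.REA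

theorem rea : ∃ C : ℝ, 1 ≤ C ∧ ∀ (P : Finset ℕ) (a : ℕ) (b0 : ℤ) (b : ℕ → ℤ) (m G T : ℕ)
    (L κ Λ : ℝ), (∀ r ∈ P, r.Prime) → 2 ∉ P → 0 < a → Even a → b0 ≠ 0 → m = P.card + 1 →
    80 * κ * Real.exp κ ≤ G → 1 ≤ κ → κ ≤ Λ → (m + 1 : ℝ) ≤ Λ → 1 ≤ L →
    (∀ r : ℕ, r.Prime → |((b0 * padicValNat r a + if r ∈ P then b r else 0 : ℤ) : ℝ)| ≤
      Real.exp Λ) →
    (T : ℝ) ≤ Real.exp Λ → C * Λ ^ 3 ≤ T → 324 * (m + 1) * L ≤ κ * T →
    C * Λ ^ 5 * ((T + (m - 1)).choose (m - 1) : ℝ) * (G + 1) *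
      (Real.log a * ∏ r ∈ P, Real.log r) ≤ (L / m) ^ m →
    Real.exp (-(C * 4 ^ m * Λ ^ 6 * T)) ≤
      |b0 * Real.log a + ∑ r ∈ P, (b r : ℝ) * Real.log r| := by
  classical
  obtain ⟨C, hC, hM⟩ := mid
  have hLoc : RowLOCR := rowLOCR rowLV rowNEW
  refine ⟨C, hC, ?_⟩
  intro P a b0 b m G T L κ Λ hP h2 ha he hb hmP hG hκ hκΛ hPΛ hL hbΛ hT hCT h324 hcount
  have hm : (0 : ℝ) < m := by rw [hmP]; positivity
  have hL0 : 0 < L := by linarith
  have hκ0 : 0 < κ := by linarith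
  have hG0 : (0 : ℝ) < G := lt_of_lt_of_le (by positivity) hG
  set ρ : ℝ := Real.exp (-κ) / 80 with hρ
  have hρ0 : 0 ≤ ρ := by positivity
  have loc := hLoc ℚ (Rat.castHom ℝ) κ ρ hκ0.le hρ0 (by rw [hρ]; linarith)
  obtain ⟨Z, hZ, hZm⟩ := box hP h2 ha he (t := L / m) (by positivity)
  rw [← hmP] at hZ hZm
  have hZL : ∀ z ∈ Z, (z : ℝ) ≤ Real.exp L := fun z hz => by
    have := (hZm z hz).2.1
    rwa [mul_div_cancel₀ _ hm.ne'] at this
  have ha2 : 2 ≤ a := by obtain ⟨c, rfl⟩ := he; omega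
  have hprod : 0 < Real.log a * ∏ r ∈ P, Real.log r :=
    mul_pos (Real.log_pos (by exact_mod_cast ha2))
      (Finset.prod_pos fun r hr => Real.log_pos (by exact_mod_cast (hP r hr).one_lt))
  have hc : C * Λ ^ 5 * ((T + (m - 1)).choose (m - 1) : ℝ) * (G + 1) ≤ Z.card :=
    le_of_mul_le_mul_right (hcount.trans hZ) hprod
  obtain ⟨k, -, hk⟩ := Finset.exists_le_card_fiber_of_nsmul_le_card_of_maps_to
    (s := Z) (t := Finset.range (G + 1)) (f := fun z : ℕ => ⌊G * Real.log z / L⌋₊)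
    (b := C * Λ ^ 5 * ((T + (m - 1)).choose (m - 1) : ℝ))
    (fun z hz => by
      rw [Finset.mem_range, Nat.lt_succ_iff]
      apply Nat.floor_le_of_le
      have h0 : (0 : ℝ) < z := by exact_mod_cast (hZm z hz).1
      have h1 : Real.log z ≤ L := (Real.log_le_iff_le_exp h0).2 (hZL z hz)
      rw [div_le_iff₀ hL0]
      exact mul_le_mul_of_nonneg_left h1 hG0.le)
    Finset.nonempty_range_add_one
    (by
      rw [Finset.card_range, nsmul_eq_mul]
      push_cast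
      linarith)
  set F := Z.filter (fun z : ℕ => ⌊G * Real.log z / L⌋₊ = k) with hF
  have hFZ : ∀ z ∈ F, z ∈ Z := fun z hz => (Finset.mem_filter.1 hz).1
  have hcard : (F.image un).card = F.card := by
    apply Finset.card_image_of_injOn
    intro z hz z' hz' h
    have h1 := un_val (hZm z (hFZ z hz)).1
    have h2 := un_val (hZm z' (hFZ z' hz')).1
    rw [h, h2] at h1
    exact_mod_cast h1.symm
  have hP2 : ∀ r ∈ insert 2 P, r.Prime := fun r hr => by
    rcases Finset.mem_insert.1 hr with rfl | hr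
    · exact Nat.prime_two
    · exact hP r hr
  have hc2 : (insert 2 P).card = m := by rw [Finset.card_insert_of_notMem h2, hmP]
  let f : Fin m → ℕ := (insert 2 P).orderEmbOfFin hc2
  have hf : ∀ i, (f i).Prime := fun i => hP2 _ (Finset.orderEmbOfFin_mem _ _ i)
  have hfs : ∀ r ∈ insert 2 P, ∃ i, f i = r := fun r hr => by
    have := Finset.range_orderEmbOfFin (insert 2 P) hc2
    have h' : r ∈ Set.range ((insert 2 P).orderEmbOfFin hc2) := by rw [this]; exact hr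
    exact h'
  have hβ : ((un a ^ b0 * be P b : ℚˣ) : ℚ) = (a : ℚ) ^ b0 * ∏ r ∈ P, (r : ℚ) ^ b r := by
    rw [Units.val_mul, Units.val_zpow_eq_zpow_val, un_val ha, be_val hP]
  have hβ2 : padicValRat 2 ((un a ^ b0 * be P b : ℚˣ) : ℚ) ≠ 0 := by
    rw [hβ, val_form 2 Nat.prime_two hP ha, if_neg h2, add_zero]
    exact mul_ne_zero hb (by exact_mod_cast two_val ha he)
  have key := hM ℚ ℝ (Rat.castHom ℝ) Real.exp ⊤ 2 κ ρ loc (Gr P hP a ha) m (Ph f hf _)
    (fun z => Real.log ((z : ℚ) : ℝ)) (F.image un) (un a ^ b0 * be P b) T L Λ (gr_sat hP ha)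
    (fun z hz => ph_sep hP h2 ha he f hf hfs z (hz.trans_le (by
      rw [Module.finrank_self]; norm_num)))
    (by rw [Module.finrank_self]; omega)
    (fun a _ c _ => by
      push_cast
      exact Real.log_mul (by exact_mod_cast a.ne_zero) (by exact_mod_cast c.ne_zero))
    (fun y hy => by
      obtain ⟨z, hz, rfl⟩ := Finset.mem_image.1 hy
      have hz' := hFZ z hz
      rw [un_val (hZm z hz').1]
      refine ⟨?_, fun σ => ?_, ?_⟩
      · exact_mod_cast (isIntegral_algebraMap (R := ℤ) (A := ℚ) (x := (z : ℤ)))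
      · rw [map_natCast, Complex.norm_natCast, Module.finrank_self, Nat.cast_one, div_one]
        exact hZL z hz'
      · rw [map_natCast, Real.norm_natCast]
        exact hZL z hz')
    (fun y hy y' hy' => by
      obtain ⟨z, hz, rfl⟩ := Finset.mem_image.1 hy
      obtain ⟨z', hz', rfl⟩ := Finset.mem_image.1 hy'
      obtain ⟨h0, -, he1⟩ := hZm z (hFZ z hz)
      obtain ⟨h0', -, he2⟩ := hZm z' (hFZ z' hz')
      have r0 : (0 : ℝ) < z := by exact_mod_cast h0
      have r0' : (0 : ℝ) < z' := by exact_mod_cast h0'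
      have hv : (((un z / un z' : ℚˣ) : ℚ) : ℝ) = (z : ℝ) / z' := by
        rw [Units.val_div_eq_div_val, un_val h0, un_val h0']
        push_cast
        rfl
      refine ⟨⟨div_mem he1 he2, ph_le f hf _ _ _ (by linarith) fun r hr =>
        val_quo hr h0 h0' (hZL z (hFZ z hz)) (hZL z' (hFZ z' hz'))⟩, ?_, AddSubgroup.mem_top _, ?_,
        fun j => ?_⟩
      · intro h
        have h1 : ((un z : ℚˣ) : ℚ) = -((un z' : ℚˣ) : ℚ) := by rw [h, Units.val_neg]
        rw [un_val h0, un_val h0'] at h1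
        have q0 : (0 : ℚ) < z := by exact_mod_cast h0
        have q0' : (0 : ℚ) < z' := by exact_mod_cast h0'
        linarith
      · rw [eq_ratCast, hv, Real.exp_log (by positivity)]
      · have hk1 := (Finset.mem_filter.1 hz).2
        have hk2 := (Finset.mem_filter.1 hz').2
        have hcl := close hG0 hL0 (Real.log_natCast_nonneg z) (Real.log_natCast_nonneg z')
          (hk1.trans hk2.symm)
        have hLG : L / G ≤ ρ * (L / κ) := by
          rw [hρ, Real.exp_neg, div_le_iff₀ hG0]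
          have he0 : 0 < Real.exp κ := Real.exp_pos κ
          calc L = (Real.exp κ)⁻¹ / 80 * (L / κ) * (80 * κ * Real.exp κ) := by field_simp
            _ ≤ _ := mul_le_mul_of_nonneg_left hG (by positivity)
        have h2 : (0 : ℝ) < ((2 : ℕ) : ℝ) ^ j := by positivity
        show ‖Real.log _ / _‖ ≤ _
        rw [hv, Real.log_div r0.ne' r0'.ne', Real.norm_eq_abs, abs_div, abs_of_pos h2]
        calc _ ≤ ρ * (L / κ) / ((2 : ℕ) : ℝ) ^ j :=
              div_le_div_of_nonneg_right (hcl.trans hLG) h2.le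
          _ = ρ * (L / (κ * ((2 : ℕ) : ℝ) ^ j)) := by field_simp
          _ ≤ _ := mul_le_mul_of_nonneg_left (le_max_right _ _) hρ0)
    ⟨⟨1, one_ne_zero, b0, b, by rw [pow_one, hβ]⟩, ph_le f hf _ _ _ (Real.exp_pos _).le
      fun r hr => by rw [hβ, val_form r hr hP ha]; exact hbΛ r hr⟩
    (fun h => hβ2 (by rw [h]; simp)) (fun h => hβ2 (by rw [h]; simp)) hρ0 hκ hκΛ hPΛ hL hT
    hCT h324 (by rw [hcard]; exact hk)
  have ha' : (a : ℝ) ≠ 0 := by exact_mod_cast ha.ne'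
  have hlog : Real.log (((un a ^ b0 * be P b : ℚˣ) : ℚ) : ℝ) =
      b0 * Real.log a + ∑ r ∈ P, (b r : ℝ) * Real.log r := by
    rw [← log_prod hP, Units.val_mul, Units.val_zpow_eq_zpow_val, un_val ha, Rat.cast_mul,
      Real.log_mul, Rat.cast_zpow, Real.log_zpow, Rat.cast_natCast]
    · rw [Rat.cast_zpow, Rat.cast_natCast]
      exact zpow_ne_zero _ ha'
    · exact_mod_cast (be P b).ne_zero
  rwa [hlog, Real.norm_eq_abs] at key

/-- the lower bound -/
def BakStmt (C : ℝ) : Prop :=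
  ∀ (P : Finset ℕ) (a : ℕ) (b0 : ℤ) (b : ℕ → ℤ) (H : ℝ), (∀ r ∈ P, r.Prime) → 2 ∉ P → 0 < a →
    Even a → b0 ≠ 0 → (P.card + 1 : ℝ) ≤ H → Real.log a + ∑ r ∈ P, Real.log r ≤ H →
    |(b0 : ℝ)| ≤ Real.exp H → (∀ r ∈ P, |(b r : ℝ)| ≤ Real.exp H) →
    Real.exp (-(C ^ (P.card + 2) * (Real.log a * ∏ r ∈ P, Real.log r) * H ^ 12)) ≤
      |b0 * Real.log a + ∑ r ∈ P, (b r : ℝ) * Real.log r|

theorem one_le_log {r : ℕ} (hr : r.Prime) (h2 : r ≠ 2) : 1 ≤ Real.log r := by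
  have h3 : (3 : ℝ) ≤ r := by
    have := hr.two_le
    exact_mod_cast (by omega : 3 ≤ r)
  rw [Real.le_log_iff_exp_le (by linarith)]
  linarith [Real.exp_one_lt_d9]

theorem bak : ∃ C : ℝ, 1 ≤ C ∧ BakStmt C := by
  classical
  obtain ⟨C, hC, hR⟩ := rea
  have he : (1 : ℝ) ≤ Real.exp 2 := Real.one_le_exp (by norm_num)
  obtain ⟨C', hC', hpar⟩ := P2.par rowARI C (82 * Real.exp 2) hC (by linarith)
  refine ⟨4096 * C', by linarith, ?_⟩
  intro P a b0 b H hP h2 ha hev hb hH hs hb0 hbr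
  obtain ⟨m, hm⟩ : ∃ m : ℕ, m = P.card + 1 := ⟨_, rfl⟩
  have hmR : (m : ℝ) = P.card + 1 := by rw [hm]; push_cast; ring
  have hc0 : (0 : ℝ) ≤ P.card := Nat.cast_nonneg _
  have hH1 : 1 ≤ H := by linarith
  obtain ⟨κ, hκd⟩ : ∃ κ : ℝ, κ = (m + 1 : ℝ) := ⟨_, rfl⟩
  have hκ : 1 ≤ κ := by rw [hκd, hmR]; linarith
  have hκe : 1 ≤ Real.exp κ := Real.one_le_exp (by linarith)
  have hk2 : 1 ≤ κ * Real.exp κ := one_le_mul_of_one_le_of_one_le hκ hκe
  have hG1 : 80 * κ * Real.exp κ ≤ (⌈80 * κ * Real.exp κ⌉₊ : ℝ) := Nat.le_ceil _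
  have hG2 := Nat.ceil_lt_add_one (a := 80 * κ * Real.exp κ) (by positivity)
  have hQ : (⌈80 * κ * Real.exp κ⌉₊ : ℝ) + 1 ≤ (82 * Real.exp 2) ^ (m + 1) * 1 := by
    have k : (82 : ℝ) ≤ 82 ^ (m + 1) := le_self_pow₀ (by norm_num) (by omega)
    have k2 : κ * Real.exp κ ≤ Real.exp κ * Real.exp κ :=
      mul_le_mul_of_nonneg_right (P2.le_exp κ) (by linarith)
    have k3 : Real.exp 2 ^ (m + 1) = Real.exp κ * Real.exp κ := by
      rw [← Real.exp_nat_mul, ← Real.exp_add, hκd]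
      congr 1
      push_cast
      ring
    rw [mul_one, mul_pow, k3]
    calc (⌈80 * κ * Real.exp κ⌉₊ : ℝ) + 1 ≤ 82 * (κ * Real.exp κ) := by linarith
      _ ≤ 82 ^ (m + 1) * (Real.exp κ * Real.exp κ) := by gcongr
  have ha2 : 2 ≤ a := by obtain ⟨c, rfl⟩ := hev; omega
  have hla : 1 / 2 ≤ Real.log a :=
    (by linarith [Real.log_two_gt_d9] : 1 / 2 ≤ Real.log 2).trans
      (Real.log_le_log (by norm_num) (by exact_mod_cast ha2))
  have hl1 : ∀ r ∈ P, 1 ≤ Real.log r := fun r hr =>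
    one_le_log (hP r hr) fun h => h2 (h ▸ hr)
  have hp1 : 1 ≤ ∏ r ∈ P, Real.log r := Finset.one_le_prod hl1
  have hs0 : 0 ≤ ∑ r ∈ P, Real.log r := Finset.sum_nonneg fun r hr => by linarith [hl1 r hr]
  have hLp : Real.log a * ∏ r ∈ P, Real.log r ≤ Real.exp (2 * H) := by
    have h1 : ∏ r ∈ P, Real.log r ≤ Real.exp (∑ r ∈ P, Real.log r) := by
      rw [Real.exp_sum]
      exact Finset.prod_le_prod (fun r hr => by linarith [hl1 r hr]) fun r _ => P2.le_exp _
    calc _ ≤ Real.exp (Real.log a) * Real.exp (∑ r ∈ P, Real.log r) :=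
          mul_le_mul (P2.le_exp _) h1 (by linarith) (Real.exp_pos _).le
      _ = Real.exp (Real.log a + ∑ r ∈ P, Real.log r) := (Real.exp_add _ _).symm
      _ ≤ _ := Real.exp_le_exp.2 (by linarith)
  obtain ⟨Λ, T, h1, h2', h3, h4, h5, h6, h7⟩ := hpar m (2 * H)
    (Real.log a * ∏ r ∈ P, Real.log r) ((⌈80 * κ * Real.exp κ⌉₊ : ℝ) + 1) 1 (by omega)
    (by linarith) (by linarith) (by nlinarith) hLp le_rfl (Real.one_le_exp (by linarith))
    (by positivity) hQ
  have ht : (1 : ℝ) ≤ (T : ℝ) / 648 := by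
    rw [le_div_iff₀ (by norm_num)]
    linarith
  have key := hR P a b0 b m ⌈80 * κ * Real.exp κ⌉₊ T ((T : ℝ) / 648) κ Λ hP h2 ha hev hb hm hG1 hκ
    (by rw [hκd]; exact h1) h1 ht (fun r hr => by
      have v1 := val_le hr ha
      have v0 : (0 : ℝ) ≤ padicValNat r a := Nat.cast_nonneg _
      have v2 : |((if r ∈ P then b r else 0 : ℤ) : ℝ)| ≤ Real.exp H := by
        split_ifs with h
        · exact hbr r h
        · simpa using (Real.exp_pos H).le
      have v3 : 2 * H + 1 ≤ Real.exp (2 * H) := Real.add_one_le_exp _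
      have e0 := Real.exp_pos H
      rw [Int.cast_add, Int.cast_mul, Int.cast_natCast]
      calc _ ≤ |(b0 : ℝ) * padicValNat r a| + |((if r ∈ P then b r else 0 : ℤ) : ℝ)| :=
            abs_add_le _ _
        _ ≤ Real.exp H * (2 * H) + Real.exp H := by
            rw [abs_mul, abs_of_nonneg v0]
            exact add_le_add (mul_le_mul hb0 (by linarith) v0 e0.le) v2
        _ = Real.exp H * (2 * H + 1) := by ring
        _ ≤ Real.exp H * Real.exp (2 * H) := mul_le_mul_of_nonneg_left v3 e0.le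
        _ = Real.exp (H + 2 * H) := (Real.exp_add _ _).symm
        _ ≤ _ := Real.exp_le_exp.2 (by linarith)) h3 h4 (by
      rw [← hκd]
      nlinarith) h6
  rw [mul_one] at h7
  refine (Real.exp_le_exp.2 (neg_le_neg (h7.trans ?_))).trans key
  have k : (4096 : ℝ) ≤ 4096 ^ (m + 1) := le_self_pow₀ (by norm_num) (by omega)
  rw [show P.card + 2 = m + 1 by omega, mul_pow 4096]
  have hLp0 : 0 ≤ Real.log a * ∏ r ∈ P, Real.log r := by positivity
  calc C' ^ (m + 1) * (Real.log a * ∏ r ∈ P, Real.log r) * (2 * H) ^ 12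
      = 4096 * C' ^ (m + 1) * (Real.log a * ∏ r ∈ P, Real.log r) * H ^ 12 := by ring
    _ ≤ _ := by gcongr

end Pool.Agent.MP_bd9ace_nt.H98
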