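import Pool.Agent.MP_bd9ace_nt.H98.Step

/-! The bound for a minimal closed set of prime powers. -/

namespace Pool.Agent.MP_bd9ace_nt.H98

open Finset ArithmeticFunction

theorem num {C : ℝ} (hC : 1 ≤ C) : ∃ E : ℝ, ∀ (k : ℕ) (H : ℝ), 1 ≤ k → 1 ≤ H →
    (∀ R : ℝ, 2 * k + 2 ≤ R → 8 * ((k + 1) * H) ^ (k + 1) ≤ Real.exp R →
      H ≤ (2 * C ^ (k + 2) * R ^ 13) ^ 15 ^ (k + 1)) → Real.log (k * H) ≤ E ^ k := by
  refine ⟨5 * (675 * (C + 40)) ^ 2, fun k H hk hH hb => ?_⟩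
  have hk1 : (1 : ℝ) ≤ k := by exact_mod_cast hk
  obtain ⟨t, ht0, ht⟩ : ∃ t : ℝ, 0 ≤ t ∧ t ^ 2 = Real.log H :=
    ⟨√(Real.log H), Real.sqrt_nonneg _, Real.sq_sqrt (Real.log_nonneg hH)⟩
  have hHt : H = Real.exp (t ^ 2) := by rw [ht, Real.exp_log (by linarith)]
  have e1 : ((k : ℝ) + 3) ^ 2 ≤ Real.exp (2 * k + 4) := by
    have h1 : (k : ℝ) + 2 + 1 ≤ Real.exp (k + 2) := Real.add_one_le_exp _
    calc ((k : ℝ) + 3) ^ 2 ≤ Real.exp (k + 2) ^ 2 := by gcongr; linarith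
      _ = _ := by rw [← Real.exp_nat_mul]; congr 1; push_cast; ring
  have ht2 : 0 ≤ t ^ 2 := sq_nonneg t
  have h1 := hb (Real.exp (2 * k + 4) * (1 + t ^ 2)) (by nlinarith) (by
    have a1 : (8 : ℝ) ≤ Real.exp 3 := by
      have := Real.add_one_le_exp 1
      calc (8 : ℝ) = 2 ^ 3 := by norm_num
        _ ≤ Real.exp 1 ^ 3 := by gcongr; linarith
        _ = _ := by rw [← Real.exp_nat_mul]; norm_num
    have a2 : ((k : ℝ) + 1) * H ≤ Real.exp (k + t ^ 2) := by
      rw [Real.exp_add, ← hHt]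
      exact mul_le_mul_of_nonneg_right (Real.add_one_le_exp _) (by linarith)
    calc 8 * (((k : ℝ) + 1) * H) ^ (k + 1) ≤ Real.exp 3 * Real.exp (k + t ^ 2) ^ (k + 1) := by
          gcongr
      _ = Real.exp (3 + (k + 1) * (k + t ^ 2)) := by
          rw [← Real.exp_nat_mul, ← Real.exp_add]; push_cast; rfl
      _ ≤ _ := Real.exp_le_exp.2 (le_trans (by nlinarith [mul_nonneg ht2 (sq_nonneg (k : ℝ))])
          (mul_le_mul_of_nonneg_right e1 (by linarith))))
  have h2 := Real.log_le_log (by linarith) h1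
  rw [← ht, Real.log_pow, Real.log_mul (by positivity) (by positivity),
    Real.log_mul (by positivity) (by positivity), Real.log_pow, Real.log_pow,
    Real.log_mul (by positivity) (by positivity), Real.log_exp] at h2
  push_cast at h2
  have l2 : Real.log 2 ≤ 1 := by linarith [Real.log_two_lt_d9]
  have lC : Real.log C ≤ C := by linarith [Real.log_le_sub_one_of_pos (by linarith : 0 < C)]
  have lt : Real.log (1 + t ^ 2) ≤ 2 * t := by
    have a1 : Real.log (1 + t ^ 2) ≤ Real.log ((1 + t) ^ 2) :=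
      Real.log_le_log (by linarith) (by nlinarith)
    have a2 := Real.log_le_sub_one_of_pos (by linarith : 0 < 1 + t)
    rw [Real.log_pow] at a1
    push_cast at a1
    linarith
  obtain ⟨W, hW⟩ : ∃ W : ℝ, W = (k + 2) * (C + 40) := ⟨_, rfl⟩
  have hW1 : 26 ≤ W := by rw [hW]; nlinarith
  have h3 : Real.log 2 + (k + 2) * Real.log C + 13 * (2 * k + 4 + Real.log (1 + t ^ 2)) ≤
      W * (1 + t) := by
    have a1 : ((k : ℝ) + 2) * Real.log C ≤ (k + 2) * C := by gcongr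
    have a2 : 26 * t ≤ W * t := by gcongr
    rw [mul_add W, mul_one]
    have a3 : W = (k + 2) * C + 40 * k + 80 := by rw [hW]; ring
    linarith
  obtain ⟨A, hA⟩ : ∃ A : ℝ, A = 15 ^ (k + 1) * W := ⟨_, rfl⟩
  have h15 : (1 : ℝ) ≤ 15 ^ (k + 1) := one_le_pow₀ (by norm_num)
  have hA1 : W ≤ A := by rw [hA]; nlinarith
  have h4 : t ^ 2 ≤ A * (1 + t) := by
    rw [hA, mul_assoc]
    exact h2.trans (mul_le_mul_of_nonneg_left h3 (by linarith))
  have h5 : t ≤ 2 * A := by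
    by_contra hc
    nlinarith [not_le.1 hc]
  have h6 : A ≤ (675 * (C + 40)) ^ k := by
    have a1 : (15 : ℝ) ^ (k + 1) ≤ 225 ^ k := by
      rw [show (225 : ℝ) = 15 ^ 2 by norm_num, ← pow_mul]
      exact pow_le_pow_right₀ (by norm_num) (by omega)
    have a2 : (k : ℝ) + 2 ≤ 3 ^ k := by
      have := one_add_mul_le_pow (by norm_num : (-2 : ℝ) ≤ 2) k
      norm_num at this
      linarith
    have a3 : C + 40 ≤ (C + 40) ^ k := le_self_pow₀ (by linarith) (by omega)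
    calc A ≤ 225 ^ k * (3 ^ k * (C + 40) ^ k) := by rw [hA, hW]; gcongr
      _ = _ := by rw [← mul_pow, ← mul_pow]; congr 1; ring
  have h7 : (k : ℝ) ≤ A := by
    refine le_trans ?_ hA1
    rw [hW]
    nlinarith
  have h8 : Real.log k ≤ k := by linarith [Real.log_le_sub_one_of_pos (by linarith : (0 : ℝ) < k)]
  have h9 : (5 : ℝ) ≤ 5 ^ k := le_self_pow₀ (by norm_num) (by omega)
  rw [Real.log_mul (by linarith) (by linarith), ← ht, mul_pow, ← pow_mul, mul_comm 2 k, pow_mul]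
  have hA0 : 1 ≤ A := by linarith
  calc Real.log k + t ^ 2 ≤ 5 * A ^ 2 := by nlinarith
    _ ≤ _ := by gcongr

theorem sg_pow {p : ℕ} (hp : p.Prime) (e : ℕ) :
    (p - 1) * sigma 1 (p ^ e) + 1 = p ^ (e + 1) := by
  have := geom_sum_mul_add (p - 1) (e + 1)
  rw [Nat.sub_add_cancel hp.one_le] at this
  rw [sigma_one_apply_prime_pow hp, mul_comm, this]

theorem main : ∃ E : ℝ, ∀ n : ℕ, Odd n → 1 < n → (sigma 1 n).primeFactors ⊆ n.primeFactors →
    ∃ d : ℕ, 1 < d ∧ d ∣ n ∧ Nat.Coprime d (n / d) ∧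
      d.primeFactors = (sigma 1 d).primeFactors ∧
      Real.log (Real.log d) ≤ E ^ d.primeFactors.card := by
  classical
  obtain ⟨C, hC, hB⟩ := bak
  obtain ⟨E, hE⟩ := num hC
  refine ⟨E, fun n hodd hn hsub => ?_⟩
  have hn0 : n ≠ 0 := by omega
  set e : ℕ → ℕ := fun p => n.factorization p with he
  set s : ℕ → ℕ := fun p => sigma 1 (p ^ e p) with hs
  have hs0 : ∀ p : ℕ, p.Prime → s p ≠ 0 := fun p hp =>
    (sigma_pos 1 _ (pow_ne_zero _ hp.ne_zero)).ne'
  have hmul : ∀ V ⊆ n.primeFactors, sigma 1 (∏ p ∈ V, p ^ e p) = ∏ p ∈ V, s p := fun V hV =>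
    isMultiplicative_sigma.map_prod _ V fun p hp q hq hpq => Nat.coprime_pow_primes _ _
      (Nat.prime_of_mem_primeFactors (hV hp)) (Nat.prime_of_mem_primeFactors (hV hq)) hpq
  have hall : ∏ p ∈ n.primeFactors, p ^ e p = n := Nat.prod_factorization_pow_eq_self hn0
  have hcl : ∀ p ∈ n.primeFactors, (s p).primeFactors ⊆ n.primeFactors := fun p hp => by
    refine (Nat.primeFactors_mono ?_ (sigma_pos 1 n hn0).ne').trans hsub
    have := hmul _ subset_rfl
    rw [hall] at this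
    rw [this]
    exact dvd_prod_of_mem _ hp
  obtain ⟨V, hV, hmin⟩ := exists_min_image (n.primeFactors.powerset.filter fun S =>
    S.Nonempty ∧ ∀ p ∈ S, (s p).primeFactors ⊆ S) card
    ⟨n.primeFactors, mem_filter.2 ⟨mem_powerset_self _, Nat.nonempty_primeFactors.2 hn, hcl⟩⟩
  obtain ⟨hVn, hne, hV⟩ := mem_filter.1 hV
  rw [mem_powerset] at hVn
  have hmin' : ∀ S ⊆ V, S.Nonempty → (∀ p ∈ S, (s p).primeFactors ⊆ S) → S = V :=
    fun S hS h1 h2 => eq_of_subset_of_card_le hS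
      (hmin S (mem_filter.2 ⟨mem_powerset.2 (hS.trans hVn), h1, h2⟩))
  have hP : ∀ p ∈ V, p.Prime := fun p hp => Nat.prime_of_mem_primeFactors (hVn hp)
  have hpos : ∀ p ∈ V, 1 ≤ e p := fun p hp =>
    (hP p hp).factorization_pos_of_dvd hn0 (Nat.dvd_of_mem_primeFactors (hVn hp))
  obtain ⟨p0, hp0, hmax⟩ := exists_max_image V (fun p => (e p + 1 : ℝ) * Real.log p) hne
  set H := (e p0 + 1 : ℝ) * Real.log p0 with hH
  have sys : Sys V e (fun p q => (s p).factorization q) H := by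
    refine ⟨hP, fun h2 => ?_, hpos, fun p hp => ?_, hmax⟩
    · exact (Nat.not_even_iff_odd.2 hodd)
        (even_iff_two_dvd.2 (Nat.dvd_of_mem_primeFactors (hVn h2)))
    · rw [← sg_pow (hP p hp)]
      congr 2
      refine Eq.trans (prod_subset (hV p hp) fun q _ hq => ?_).symm
        (Nat.prod_factorization_pow_eq_self (hs0 p (hP p hp)))
      rw [Finsupp.notMem_support_iff.1 hq, pow_zero]
  have hH1 : 1 ≤ H := by
    have := sys.e_le hp0
    have h0 : (0 : ℝ) ≤ e p0 := Nat.cast_nonneg _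
    linarith
  have hbd := hE V.card H hne.card_pos hH1 fun R h1 h2 => sys.bound hH1 hne (fun S hS h3 h4 =>
    hmin' S hS h3 fun p hp q hq => by
      by_contra hqS
      exact Finsupp.mem_support_iff.1 hq (h4 p hp q (mem_sdiff.2 ⟨hV p (hS hp) hq, hqS⟩)))
    hC hB h1 h2 hp0
  have hdn : (∏ p ∈ V, p ^ e p) * ∏ p ∈ n.primeFactors \ V, p ^ e p = n := by
    rw [mul_comm, prod_sdiff hVn, hall]
  have hd0 : 0 < ∏ p ∈ V, p ^ e p := prod_pos fun p hp => pow_pos (hP p hp).pos _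
  have hpf : (∏ p ∈ V, p ^ e p).primeFactors = V := by
    ext q
    rw [Nat.mem_primeFactors_of_ne_zero hd0.ne']
    constructor
    · rintro ⟨hq, hd⟩
      obtain ⟨p, hp, hd⟩ := (Prime.dvd_finsetProd_iff hq.prime _).1 hd
      rwa [(Nat.prime_dvd_prime_iff_eq hq (hP p hp)).1 (hq.dvd_of_dvd_pow hd)]
    · intro hq
      exact ⟨hP q hq, (dvd_pow_self q (by have := hpos q hq; omega)).trans (dvd_prod_of_mem _ hq)⟩
  have hd1 : 1 < ∏ p ∈ V, p ^ e p := Nat.nonempty_primeFactors.1 (by rwa [hpf])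
  refine ⟨∏ p ∈ V, p ^ e p, hd1, ⟨_, hdn.symm⟩, ?_, ?_, ?_⟩
  · rw [Nat.div_eq_of_eq_mul_right hd0 hdn.symm]
    refine Nat.Coprime.prod_left fun p hp => Nat.Coprime.prod_right fun q hq => ?_
    obtain ⟨hq1, hq2⟩ := mem_sdiff.1 hq
    exact Nat.coprime_pow_primes _ _ (hP p hp) (Nat.prime_of_mem_primeFactors hq1)
      fun h => hq2 (h ▸ hp)
  · have hz : ∏ p ∈ V, s p ≠ 0 := prod_ne_zero_iff.2 fun p hp => hs0 p (hP p hp)
    have hW : (∏ p ∈ V, s p).primeFactors ⊆ V := fun q hq => by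
      have hq' := Nat.prime_of_mem_primeFactors hq
      obtain ⟨p, hp, hd⟩ := (Prime.dvd_finsetProd_iff hq'.prime _).1
        (Nat.dvd_of_mem_primeFactors hq)
      exact hV p hp (Nat.mem_primeFactors.2 ⟨hq', hd, hs0 p (hP p hp)⟩)
    rw [hpf, hmul V hVn]
    refine (hmin' _ hW ?_ fun p hp => Nat.primeFactors_mono (dvd_prod_of_mem _ (hW hp)) hz).symm
    rw [Nat.nonempty_primeFactors, ← hmul V hVn, sigma_one_apply]
    exact hd1.trans_le (single_le_sum (f := fun x => x) (fun _ _ => Nat.zero_le _)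
      (Nat.mem_divisors_self _ hd0.ne'))
  · rw [hpf]
    refine (Real.log_le_log (Real.log_pos (by exact_mod_cast hd1)) ?_).trans hbd
    push_cast
    rw [Real.log_prod fun p hp => pow_ne_zero _ (by exact_mod_cast (hP p hp).ne_zero),
      ← nsmul_eq_mul]
    refine sum_le_card_nsmul _ _ _ fun p hp => le_trans ?_ (hmax p hp)
    rw [Real.log_pow]
    have := Real.log_natCast_nonneg p
    linarith

end Pool.Agent.MP_bd9ace_nt.H98
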