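import Pool.Agent.MP_542436_nt.H96.MID
import Pool.Agent.MP_542436_nt.H96.CORE
import Pool.Agent.MP_542436_nt.H96.KUM
import Pool.Agent.MP_542436_nt.H96.SIE
import Pool.Agent.MP_542436_nt.H96.LAT
import Pool.Agent.MP_542436_nt.H96.PAR

/-! The abstract lower bound for linear forms in logarithms over a saturated group. -/

namespace Pool.Agent.MP_bd9ace_nt.H98

open NumberField Pool.Agent.MP_542436_nt.H96 Pool.Agent.MP_542436_nt.H96.MID

/-- the abstract lower bound -/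
def MidStmt : Prop :=
  ∃ C : ℝ, 1 ≤ C ∧ ∀ (K A : Type) [Field K] [NumberField K] [IsTotallyReal K] [NormedField A]
    (ι : K →+* A) (E : A → A) (B : AddSubgroup A) (q : ℕ) (κ ρ : ℝ), Loc ι E B q κ ρ →
    ∀ (G : Subgroup Kˣ) (n : ℕ) (Φ : Additive G →+ (Fin n → ℝ)) (l : Kˣ → A) (X : Finset Kˣ)
      (β : Kˣ) (T : ℕ) (L Λ : ℝ),
      (∀ (z : Kˣ) (k : ℕ), k ≠ 0 → z ^ k ∈ G → z ∈ G) →
      (∀ z : G, ‖Φ (Additive.ofMul z)‖ < 1 / 20 ^ Module.finrank ℚ K →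
        (z : Kˣ) = 1 ∨ (z : Kˣ) = -1) →
      Module.finrank ℚ K ≤ n + 1 →
      (∀ a ∈ G, ∀ b ∈ G, l (a * b) = l a + l b) →
      (∀ y ∈ X, IsIntegral ℤ (y : K) ∧
        (∀ σ : K →+* ℂ, ‖σ y‖ ≤ Real.exp (L / Module.finrank ℚ K)) ∧ ‖ι y‖ ≤ Real.exp L) →
      (∀ y ∈ X, ∀ y' ∈ X, (∃ h : y / y' ∈ G, ‖Φ (Additive.ofMul ⟨y / y', h⟩)‖ ≤ 2 * L) ∧
        y ≠ -y' ∧ l (y / y') ∈ B ∧ ι (y / y' : Kˣ) = E (l (y / y')) ∧
        ∀ j : ℕ, ‖l (y / y') / (q : A) ^ j‖ ≤ ρ * max 1 (L / (κ * (q : ℝ) ^ j))) →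
      (∃ h : β ∈ G, ‖Φ (Additive.ofMul ⟨β, h⟩)‖ ≤ Real.exp Λ) → β ≠ 1 → β ≠ -1 →
      0 ≤ ρ → 1 ≤ κ → κ ≤ Λ →
      (n + 1 : ℝ) ≤ Λ → 1 ≤ L → (T : ℝ) ≤ Real.exp Λ → C * Λ ^ 3 ≤ T →
      324 * (n + 1) * L ≤ κ * T → C * Λ ^ 5 * ((T + (n - 1)).choose (n - 1) : ℝ) ≤ X.card →
      Real.exp (-(C * 4 ^ n * Λ ^ 6 * T)) ≤ ‖l β‖

/-- Coordinates on a saturated group that contains a given finite set. -/
lemma lat (hL : RowLAT) {K A : Type} [Field K] [NumberField K]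
    [Field A] [CharZero A] {G : Subgroup Kˣ} {n : ℕ} (Λ : Additive G →+ (Fin n → ℝ))
    (hsat : ∀ (z : Kˣ) (k : ℕ), k ≠ 0 → z ^ k ∈ G → z ∈ G)
    (h2 : ∀ z : G, ‖Λ (Additive.ofMul z)‖ < 1 / 20 ^ Module.finrank ℚ K →
      (z : Kˣ) = 1 ∨ (z : Kˣ) = -1) {l : Kˣ → A}
    (hl : ∀ a ∈ G, ∀ b ∈ G, l (a * b) = l a + l b) (Z : Finset Kˣ) {r : ℝ}
    (hr : 0 ≤ r) (hZ : ∀ z ∈ Z, ∃ h : z ∈ G, ‖Λ (Additive.ofMul ⟨z, h⟩)‖ ≤ r) :
    ∃ (m : ℕ) (Γ : Subgroup Kˣ) (ψ : Kˣ → Fin m → ℤ) (η : Fin m → A), m ≤ n ∧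
      (∀ z ∈ Z, z ∈ Γ) ∧ (∀ (z : Kˣ) (k : ℕ), k ≠ 0 → z ^ k ∈ Γ → z ∈ Γ) ∧
      (∀ z ∈ Γ, ∀ k : ℕ, ψ (z ^ k) = k • ψ z) ∧ (∀ z ∈ Γ, ψ z = 0 → z = 1 ∨ z = -1) ∧
      (∀ z ∈ Γ, l z = ∑ i, η i * ψ z i) ∧
      (∀ z ∈ Z, ∀ i, |(ψ z i : ℝ)| ≤ (2 * n * r / (1 / 20 ^ Module.finrank ℚ K) + 1) ^ n) ∧
      ∀ q : ℕ, 0 < q → ∃ R : Finset Kˣ, R.card ≤ 2 * q ^ m ∧
        ∀ z ∈ Γ, ∃ b ∈ R, ∃ u : Kˣ, z = b * u ^ q := by
  classical
  have hpos : (0 : ℝ) < 1 / 20 ^ Module.finrank ℚ K := by positivity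
  have two : ∀ a : Additive G,
      ((a.toMul : G) : Kˣ) = 1 ∨ ((a.toMul : G) : Kˣ) = -1 → 2 • a = 0 := by
    intro a h
    apply Additive.toMul.injective
    apply Subtype.ext
    rcases h with h | h <;> simp [h]
  have ker : ∀ a : Additive G, Λ a = 0 →
      ((a.toMul : G) : Kˣ) = 1 ∨ ((a.toMul : G) : Kˣ) = -1 := fun a h =>
    h2 a.toMul (by rw [ofMul_toMul, h, norm_zero]; exact hpos)
  let g : Kˣ → Additive G := fun z =>
    if h : z ∈ G then Additive.ofMul ⟨z, h⟩ else 0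
  have hg : ∀ z (h : z ∈ G), g z = Additive.ofMul ⟨z, h⟩ := fun z h => dif_pos h
  obtain ⟨m, H, Ψ, a1, a2, a3, a4, a5, a6⟩ := hL _ n Λ (Z.image g) _ r hpos hr (fun a ha => by
    have := congrArg Λ (two a (h2 a.toMul ha))
    rw [map_nsmul, map_zero] at this
    exact (smul_eq_zero.1 this).resolve_left two_ne_zero) (by
    simp only [Finset.forall_mem_image]
    intro z hz
    rw [hg z (hZ z hz).1]
    exact (hZ z hz).2)
  let lG : Additive G →+ A :=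
    AddMonoidHom.mk' (fun a => l (a.toMul : G)) fun a b => hl _ a.toMul.2 _ b.toMul.2
  obtain ⟨η, hη⟩ := exists_eta Ψ (lG.comp H.subtype) fun a ha => by
    have := congrArg lG (two a (ker a ((a4 a).1 ha)))
    rw [map_nsmul, map_zero] at this
    exact (smul_eq_zero.1 this).resolve_left two_ne_zero
  let Γ : Subgroup Kˣ := H.toSubgroup'.map G.subtype
  have hΓ : ∀ z, z ∈ Γ ↔ ∃ h : z ∈ G, Additive.ofMul (⟨z, h⟩ : G) ∈ H := fun z =>
    ⟨by rintro ⟨y, hy, rfl⟩; exact ⟨y.2, hy⟩, fun ⟨h, h'⟩ => ⟨⟨z, h⟩, h', rfl⟩⟩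
  let ψ : Kˣ → Fin m → ℤ := fun z => if h : g z ∈ H then Ψ ⟨g z, h⟩ else 0
  have hψ : ∀ z (h : z ∈ G) (h' : Additive.ofMul (⟨z, h⟩ : G) ∈ H),
      ψ z = Ψ ⟨_, h'⟩ := fun z h h' => by
    have e := hg z h
    simp only [ψ, dif_pos (e ▸ h' : g z ∈ H)]
    congr 2
  have hZ' : ∀ z (hz : z ∈ Z), Additive.ofMul (⟨z, (hZ z hz).1⟩ : G) ∈ Z.image g :=
    fun z hz => Finset.mem_image.2 ⟨z, hz, hg z _⟩
  refine ⟨m, Γ, ψ, η, a1, fun z hz => (hΓ z).2 ⟨_, a2 _ (hZ' z hz)⟩, fun z k hk hz => ?_,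
    fun z hz k => ?_, fun z hz h0 => ?_, fun z hz => ?_, fun z hz i => ?_, fun q hq => ?_⟩
  · obtain ⟨h, h'⟩ := (hΓ _).1 hz
    have hz' : z ∈ G := hsat z k hk h
    exact (hΓ z).2 ⟨hz', a3 _ k hk h'⟩
  · obtain ⟨h, h'⟩ := (hΓ _).1 hz
    rw [hψ z h h', hψ (z ^ k) (pow_mem h k) (H.nsmul_mem h' k), ← map_nsmul]
    rfl
  · obtain ⟨h, h'⟩ := (hΓ _).1 hz
    rw [hψ z h h'] at h0
    exact ker _ ((a4 _).1 h0)
  · obtain ⟨h, h'⟩ := (hΓ _).1 hz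
    rw [hψ z h h']
    exact hη ⟨_, h'⟩
  · rw [hψ z (hZ z hz).1 (a2 _ (hZ' z hz))]
    exact a5 _ (hZ' z hz) i
  · obtain ⟨R, b1, b2⟩ := a6 q hq
    let v : Additive G → Kˣ := fun a => (a.toMul : G)
    refine ⟨R.image v ∪ R.image fun a => -v a, ?_, fun z hz => ?_⟩
    · refine (Finset.card_union_le _ _).trans ?_
      have := Finset.card_image_le (s := R) (f := v)
      have := Finset.card_image_le (s := R) (f := fun a => -v a)
      omega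
    · obtain ⟨h, h'⟩ := (hΓ _).1 hz
      obtain ⟨b, hb, a', e⟩ := b2 _ h'
      have e1 : (((Additive.ofMul (⟨z, h⟩ : G) - b - q • a').toMul : G) : Kˣ) =
          z / (v b * v a' ^ q) := by
        simp only [v, toMul_sub, toMul_ofMul, toMul_nsmul, Subgroup.coe_div, Subgroup.coe_pow,
          Subgroup.coe_mul, div_div]
      rcases ker _ e with e | e <;> rw [e1, div_eq_iff_eq_mul] at e
      · exact ⟨_, Finset.mem_union_left _ (Finset.mem_image_of_mem _ hb), v a', by simpa using e⟩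
      · exact ⟨_, Finset.mem_union_right _ (Finset.mem_image_of_mem _ hb), v a', by simpa using e⟩

theorem mid : MidStmt := by
  have hC : RowCORE := rowCORE rowKUM
  have hSi : RowSIE := rowSIE
  have hL : RowLAT := rowLAT
  obtain ⟨C, hC1, hPar⟩ := rowPAR
  refine ⟨C, hC1, ?_⟩
  intro K A _ _ _ _ ι E B q κ ρ loc G n Φ l X β T L Λ hsat hsep hn hl hX hXX hβs hβ1 hβ2 hρ hκ hκΛ
    hnΛ hL1 hT1 hT2 hT3 hcard
  classical
  by_contra hlt
  rw [not_le] at hlt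
  have : CharZero A := (RingHom.charZero_iff ι.injective).1 inferInstance
  set D := Module.finrank ℚ K with hD
  have hD1 : 1 ≤ D := Module.finrank_pos
  have hq : 2 ≤ q ∧ q ≤ 3 := by rcases loc.q23 with h | h <;> omega
  have hL0 : 0 ≤ L := by linarith
  obtain ⟨m, Γ, ψ, η, a1, a2, a3, a4, a5, a6, a7, a8⟩ := lat hL Φ hsat hsep hl
    (insert β ((X ×ˢ X).image fun p => p.1 / p.2)) (r := max (2 * L) (Real.exp Λ))
    (le_max_of_le_right (Real.exp_pos _).le) (by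
      simp only [Finset.forall_mem_insert, Finset.forall_mem_image, Finset.mem_product]
      refine ⟨⟨hβs.1, hβs.2.trans (le_max_right _ _)⟩, ?_⟩
      rintro ⟨y, y'⟩ ⟨hy, hy'⟩
      exact ⟨(hXX y hy y' hy').1.1, (hXX y hy y' hy').1.2.trans (le_max_left _ _)⟩)
  set I := (2 * n * max (2 * L) (Real.exp Λ) / (1 / 20 ^ D) + 1) ^ n with hI
  have hI1 : 1 ≤ I := one_le_pow₀ (le_add_of_nonneg_left (by positivity))
  have hZ : ∀ y ∈ X, ∀ y' ∈ X, y / y' ∈ insert β ((X ×ˢ X).image fun p => p.1 / p.2) :=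
    fun y hy y' hy' => Finset.mem_insert_of_mem
      (Finset.mem_image.2 ⟨(y, y'), Finset.mem_product.2 ⟨hy, hy'⟩, rfl⟩)
  have hβZ := Finset.mem_insert_self β ((X ×ˢ X).image fun p => p.1 / p.2)
  obtain ⟨i0, hi0⟩ : ∃ i, ψ β i ≠ 0 :=
    Function.ne_iff.1 fun h => (a5 β (a2 β hβZ) h).elim hβ1 hβ2
  obtain ⟨m, rfl⟩ : ∃ m', m = m' + 1 := ⟨m - 1, by have := i0.pos; omega⟩
  set e := (T + (n - 1)).choose (n - 1) with he
  have he1 : 1 ≤ e := Nat.choose_pos (Nat.le_add_left _ _)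
  obtain ⟨S, J, Δ, w, b1, b2, b3, b4, b5, b6, b7⟩ := hPar n D T q e L Λ κ I hD1 (by omega) loc.q23
    hκ hκΛ hnΛ hL1 hT1 hT2 hT3 hI he1 ((Nat.choose_add_le_add_one_pow _ _).trans
      (Nat.pow_le_pow_right (by omega) (by omega)))
  obtain ⟨X', hX', hc'⟩ := Finset.exists_subset_card_eq (s := X) (n := 2 * D * S * e) (by
    have : ((2 * D * S * e : ℕ) : ℝ) ≤ X.card := by
      push_cast
      exact (mul_le_mul_of_nonneg_right b4 (Nat.cast_nonneg _)).trans hcard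
    exact_mod_cast this)
  have hne : X'.Nonempty := Finset.card_pos.1 (by rw [hc']; positivity)
  obtain ⟨y0, hy0⟩ := id hne
  have hy0 := hX' hy0
  obtain ⟨s, hs1, hs2⟩ := exists_idx m T
  have hs3 : s.card ≤ e := hs1.trans (by
    rw [he, ← Nat.choose_symm_add, ← Nat.choose_symm_add (b := n - 1)]
    exact Nat.choose_le_choose _ (by omega))
  let x : Kˣ → Fin m → ℤ := fun y i =>
    ψ β i0 * ψ (y / y0) (i0.succAbove i) - ψ β (i0.succAbove i) * ψ (y / y0) i0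
  have hU : 1 ≤ 2 * I ^ 2 := by nlinarith
  have hx : ∀ y ∈ X, ∀ i, |(x y i : ℝ)| ≤ 2 * I ^ 2 := fun y hy i => by
    have h1 := mul_le_mul (a7 β hβZ i0) (a7 _ (hZ y hy y0 hy0) (i0.succAbove i)) (abs_nonneg _)
      (by linarith)
    have h2 := mul_le_mul (a7 β hβZ (i0.succAbove i)) (a7 _ (hZ y hy y0 hy0) i0) (abs_nonneg _)
      (by linarith)
    simp only [x]
    push_cast
    refine (abs_sub _ _).trans ?_
    rw [abs_mul, abs_mul]
    linarith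
  have hLD : 0 ≤ L / D := by positivity
  obtain ⟨c, ⟨y1, hy1, hc1⟩, hc2, hc3⟩ := hSi K Kˣ (ℕ × (Fin m → ℕ)) X' (Finset.range S ×ˢ s)
    (fun u y => ((∏ i, x y i ^ u.2 i : ℤ) : K) * (y : K) ^ (1 + q * u.1))
    ((2 * I ^ 2) ^ T * Real.exp (q * S * L / D))
    (one_le_mul_of_one_le_of_one_le (one_le_pow₀ hU) (Real.one_le_exp (by positivity))) hne (by
      rw [Finset.card_product, Finset.card_range, hc', ← mul_assoc]
      exact Nat.mul_le_mul_left _ hs3) (by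
      rintro ⟨i, τ⟩ hu y hy
      obtain ⟨hi, hτ⟩ := Finset.mem_product.1 hu
      have hi : i < S := Finset.mem_range.1 hi
      refine ⟨(isIntegral_algebraMap (R := ℤ)).mul ((hX y (hX' hy)).1.pow _), fun σ => ?_⟩
      rw [map_mul, map_pow, norm_mul, norm_pow, map_intCast, Complex.norm_intCast]
      refine mul_le_mul (prod_le hU (hx y (hX' hy)) ((hs2 τ).1 hτ)) ?_ (by positivity)
        (by positivity)
      refine (pow_le_pow_left₀ (norm_nonneg _) ((hX y (hX' hy)).2.1 σ) _).trans ?_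
      rw [← Real.exp_nat_mul, mul_div_assoc]
      refine Real.exp_le_exp.2 (mul_le_mul_of_nonneg_right ?_ hLD)
      have : 1 + q * i ≤ q * S := by nlinarith
      exact_mod_cast this)
  obtain ⟨R, hR1, hR2⟩ := a8 q (by omega)
  have hdiff : ∀ y ∈ X, ∀ y' ∈ X, l (y / y0) - l (y' / y0) = l (y / y') := fun y hy y' hy' => by
    rw [sub_eq_iff_eq_add, ← hl _ (hXX y hy y' hy').1.1 _ (hXX y' hy' y0 hy0).1.1,
      div_mul_div_cancel]
  refine hc1 (hC K A ι E B q κ ρ loc Γ R X' m (2 * (n + 1)) J T c x (fun y => l (y / y0))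
    (fun i => η (i0.succAbove i) / ψ β i0) (fun j => (j + 1) ^ 2 * S) Δ L w
    (I ^ 2 * Real.exp (-(C * 4 ^ n * Λ ^ 6 * T))) (fun z => a3 z q (by omega)) hR2 ?_ (by omega)
    hL0 b2 (by positivity) (by linarith) (fun y hy => ?_) (fun y hy y' hy' => ?_)
    (fun τ hτ => ?_) (fun j _ => Nat.mul_pos (by positivity) b1) (fun j hj => ?_) b6
    (fun i hi τ hτ => ?_) y1 hy1)
  · calc R.card ≤ 2 * q ^ (m + 1) := hR1
      _ ≤ 4 * 4 ^ n := Nat.mul_le_mul (by norm_num) ((Nat.pow_le_pow_left (by omega) _).trans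
          (Nat.pow_le_pow_right (by norm_num) a1))
      _ = 2 ^ (2 * (n + 1)) := by rw [pow_mul, pow_succ']; norm_num
  · have hy := hX' hy
    refine ⟨(hX y hy).1, (hX y hy).2.1, (hX y hy).2.2, ?_⟩
    rw [a6 _ (a2 _ (hZ y hy y0 hy0)), elim η (ψ β) (ψ (y / y0)) i0 hi0, ← a6 β (a2 β hβZ),
      norm_mul, sq]
    exact mul_le_mul ((loc.rat _ _).trans (mul_le_mul (a7 _ (hZ y hy y0 hy0) i0) (a7 β hβZ i0)
      (abs_nonneg _) (by linarith))) hlt.le (norm_nonneg _) (by positivity)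
  · have hy := hX' hy
    have hy' := hX' hy'
    obtain ⟨-, c2, c3, c4, c5⟩ := hXX y hy y' hy'
    rw [hdiff y hy y' hy']
    refine ⟨a2 _ (hZ y hy y' hy'), c3, c4, fun j hj => (c5 j).trans
      (mul_le_mul_of_nonneg_left (max_le ?_ (b7 j hj).2.1) hρ), fun z hz e => ?_⟩
    · exact_mod_cast (b7 j hj).1
    · have e1 : y / y' = z ^ q ^ J := by rw [← e, mul_div_cancel_right]
      have e2 : ψ (y / y') = 0 := by
        funext i
        have h1 := (a7 _ (hZ y hy y' hy') i).trans_lt b3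
        rw [e1, a4 z hz] at h1 ⊢
        have h2 : |((q ^ J : ℕ) : ℤ) * ψ z i| < ((q ^ J : ℕ) : ℤ) := by
          have : (((q ^ J) • ψ z) i) = ((q ^ J : ℕ) : ℤ) * ψ z i := by simp
          rw [this] at h1
          exact_mod_cast h1
        rw [abs_mul, abs_of_nonneg (Int.natCast_nonneg _)] at h2
        have h3 : |ψ z i| < 1 := lt_of_mul_lt_mul_left (by rwa [mul_one]) (Int.natCast_nonneg _)
        simp [Int.abs_lt_one_iff.1 h3]
      rcases a5 _ (a2 _ (hZ y hy y' hy')) e2 with h | h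
      · exact div_eq_one.1 h
      · exact absurd (by simpa using div_eq_iff_eq_mul.1 h) c2
  · refine le_trans ?_ b5
    rw [mul_assoc]
    refine (Finset.sum_le_card_nsmul _ _ _ fun y hy => ?_).trans_eq
      (by rw [nsmul_eq_mul, hc']; push_cast; rfl)
    rw [Int.cast_mul, abs_mul]
    refine mul_le_mul ((hc2 y hy).trans_eq ?_) (prod_le hU (hx y (hX' hy)) hτ) (abs_nonneg _)
      (by positivity)
    rw [hc']; push_cast; rfl
  · exact ⟨by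
      rw [← mul_assoc]
      exact Nat.mul_le_mul_right _ (by nlinarith), (b7 j hj).1, (b7 j hj).2.2.1, (b7 j hj).2.2.2⟩
  · have := hc3 (i, τ) (Finset.mem_product.2 ⟨Finset.mem_range.2 (by simpa using hi),
      (hs2 τ).2 hτ⟩)
    simpa only [Int.cast_mul, mul_assoc] using this

end Pool.Agent.MP_bd9ace_nt.H98
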