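import Pool.Agent.MP_bd9ace_nt.H98.Sys
import Pool.Agent.MP_bd9ace_nt.H98.Bak

/-! The primes of a minimal closed set are bounded one after the other. -/

namespace Pool.Agent.MP_bd9ace_nt.H98

open Finset

namespace Sys

variable {V : Finset ℕ} {e : ℕ → ℕ} {a : ℕ → ℕ → ℕ} {H : ℝ}

theorem big (h : Sys V e a H) {q : ℕ} (hq : q ∈ V) {U Y : ℝ} (hU : U ≤ Real.log q)
    (hY : 2 * Y ≤ Real.exp U) : Y ≤ (q : ℝ) - 1 := by
  have h3 := h.three hq
  have := (Real.le_log_iff_exp_le (by linarith)).1 hU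
  linarith

theorem least (h : Sys V e a H) (hH : 1 ≤ H) (hne : V.Nonempty) {R : ℝ}
    (hR : 8 * ((V.card + 1) * H) ^ (V.card + 1) ≤ Real.exp R) : ∃ q ∈ V, Real.log q < R := by
  classical
  by_contra hc
  push Not at hc
  obtain ⟨j, hj⟩ := hne
  set D := ((V.card + 1) * H) ^ V.card with hD
  have hk : (0 : ℝ) ≤ V.card := Nat.cast_nonneg _
  have hD0 : 0 < D := by positivity
  have hkH : V.card + 1 ≤ (V.card + 1) * H := le_mul_of_one_le_right (by linarith) hH
  have hW := mul_le_mul_of_nonneg_left hkH hD0.le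
  have hW0 := mul_nonneg hk hD0.le
  have hY : V.card * D < 4 * (D * ((V.card + 1) * H)) := by linarith
  have hq : ∀ q ∈ V, 4 * (D * ((V.card + 1) * H)) ≤ (q : ℝ) - 1 := fun q hq =>
    h.big hq (hc q hq) (by rw [pow_succ] at hR; linarith)
  obtain ⟨Δ, c, h1, -, h3, h4⟩ := h.elim hH subset_rfl (fun i => if i = j then 1 else 0)
    (fun i _ => by split_ifs <;> simp <;> linarith) le_rfl hY hq
  have h5 := h.small subset_rfl hD0.le (by positivity) h3 hq
  have h6 : ∑ i ∈ V, (c i : ℝ) * eta V e a i = -Δ * Real.log j := by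
    rw [comb subset_rfl, sdiff_self, Finset.bot_eq_empty, sum_empty, add_zero,
      sum_eq_single_of_mem j hj]
    · have := h4 j hj
      rw [if_pos rfl, mul_one, add_comm, ← eq_neg_iff_add_eq_zero] at this
      rw [this, Int.cast_neg]
    · intro q hq hqj
      have := h4 q hq
      rw [if_neg hqj, mul_zero, zero_add] at this
      rw [this, Int.cast_zero, zero_mul]
  have h7 : (1 : ℝ) ≤ |(Δ : ℝ)| := by exact_mod_cast Int.one_le_abs h1
  have h8 := h.log1 hj
  rw [h6, abs_mul, abs_neg, abs_of_nonneg (Real.log_natCast_nonneg j)] at h5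
  have h9 := (div_lt_one (by positivity)).2 hY
  nlinarith

theorem le_prod (h : Sys V e a H) {S : Finset ℕ} (hS : S ⊆ V) {s : ℕ} (hs : s ∈ S) :
    Real.log s ≤ ∏ t ∈ S, Real.log t := by
  have := prod_le_prod_of_subset_of_one_le (f := fun t : ℕ => Real.log t)
    (singleton_subset_iff.2 hs) (fun t _ => Real.log_natCast_nonneg t)
    fun t ht _ => h.log1 (hS ht)
  rwa [prod_singleton] at this

theorem form {S : Finset ℕ} (hS : S ⊆ V) {s : ℕ} (hs : s ∈ S) {Δ : ℤ} {c : ℕ → ℤ}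
    (h4 : ∀ j ∈ V \ S, Δ * a s j + (∑ i ∈ V \ S, c i * a i j - c j * e j) = 0) (x : ℝ) :
    Δ * x + ∑ t ∈ S, ((Δ * a s t + ∑ i ∈ V \ S, c i * a i t -
        if t = s then Δ * (e s + 1) else 0 : ℤ) : ℝ) * Real.log t =
      Δ * (eta V e a s + x - Real.log s) + ∑ i ∈ V \ S, (c i : ℝ) * eta V e a i := by
  rw [comb sdiff_subset, Finset.sdiff_sdiff_eq_self hS, eta, ← sum_sdiff hS]
  have h1 : ∑ q ∈ V \ S, ((∑ i ∈ V \ S, c i * a i q - c q * e q : ℤ) : ℝ) * Real.log q =
      -(Δ * ∑ q ∈ V \ S, (a s q : ℝ) * Real.log q) := by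
    rw [mul_sum, ← sum_neg_distrib]
    refine sum_congr rfl fun q hq => ?_
    rw [eq_neg_of_add_eq_zero_right (h4 q hq)]
    push_cast
    ring
  have h2 : ∑ t ∈ S, ((if t = s then Δ * (e s + 1) else 0 : ℤ) : ℝ) * Real.log t =
      Δ * (e s + 1) * Real.log s := by
    rw [sum_eq_single_of_mem s hs]
    · simp
    · intro q _ hq
      simp [hq]
  simp only [Int.cast_sub, Int.cast_add, sub_mul, add_mul, sum_sub_distrib, sum_add_distrib] at h1 ⊢
  rw [h1, h2]
  simp only [Int.cast_mul, Int.cast_natCast, mul_assoc, ← mul_sum]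
  ring

theorem step (h : Sys V e a H) (hH : 1 ≤ H) {C : ℝ} (hC : 1 ≤ C) (hB : BakStmt C)
    {S : Finset ℕ} (hS : S ⊆ V) {s : ℕ} (hs : s ∈ S) {R U : ℝ} (hR1 : 2 * V.card + 2 ≤ R)
    (hR : 8 * ((V.card + 1) * H) ^ (V.card + 1) ≤ Real.exp R)
    (hU : R + C ^ (V.card + 2) * R ^ 12 * (∏ t ∈ S, Real.log t) ^ 14 ≤ U)
    (hq : ∀ q ∈ V \ S, U ≤ Real.log q) : (e s + 1 : ℝ) * Real.log s < U := by
  classical
  set D := ((V.card + 1) * H) ^ V.card with hD
  set Z := ∏ t ∈ S, Real.log t with hZ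
  set G := C ^ (V.card + 2) * R ^ 12 * Z ^ 14 with hG
  have hk : (0 : ℝ) ≤ V.card := Nat.cast_nonneg _
  have hD0 : 0 < D := by positivity
  have hZ1 : 1 ≤ Z := one_le_prod fun t ht => h.log1 (hS ht)
  have hR0 : 1 ≤ R := by linarith
  have hG0 : 0 ≤ G := by positivity
  have hE : 1 ≤ Real.exp G := Real.one_le_exp hG0
  rw [pow_succ, ← hD] at hR
  have hEU : Real.exp R * Real.exp G ≤ Real.exp U := by
    rw [← Real.exp_add]; exact Real.exp_le_exp.2 hU
  have hkH : V.card + 1 ≤ (V.card + 1) * H := le_mul_of_one_le_right (by linarith) hH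
  have hW := mul_le_mul_of_nonneg_left hkH hD0.le
  have hW0 := mul_nonneg hk hD0.le
  have hY : V.card * D < 4 * (D * ((V.card + 1) * H)) * Real.exp G :=
    lt_of_lt_of_le (by linarith) (le_mul_of_one_le_right (by positivity) hE)
  have hq' : ∀ q ∈ V \ S, 4 * (D * ((V.card + 1) * H)) * Real.exp G ≤ (q : ℝ) - 1 := fun q hq' =>
    h.big (sdiff_subset hq') (hq q hq') (by
      linarith [mul_le_mul_of_nonneg_right hR (Real.exp_pos G).le])
  obtain ⟨Δ, c, h1, h2, h3, h4⟩ := h.elim hH sdiff_subset (fun j => a s j)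
    (fun j hj => by simpa using h.a_le (hS hs) (sdiff_subset hj)) le_rfl hY hq'
  have h5 := h.small sdiff_subset hD0.le (by positivity) h3 hq'
  have hp := h.prime s (hS hs)
  have h3s := h.three (hS hs)
  have hcast : ((s - 1 : ℕ) : ℝ) = s - 1 := by rw [Nat.cast_sub hp.one_le, Nat.cast_one]
  have hls : Real.log ((s : ℝ) - 1) ≤ Z :=
    (Real.log_le_log (by linarith) (by linarith)).trans (h.le_prod hS hs)
  have hcS : (S.card : ℝ) ≤ V.card := by exact_mod_cast card_le_card hS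
  have hRZ : R ≤ R * Z := le_mul_of_one_le_right (by linarith) hZ1
  have hEZ : Real.exp R ≤ Real.exp (R * Z) := Real.exp_le_exp.2 hRZ
  have key := hB S (s - 1) Δ (fun t => Δ * a s t + ∑ i ∈ V \ S, c i * a i t -
      if t = s then Δ * (e s + 1) else 0) (R * Z) (fun r hr => h.prime r (hS hr))
    (fun h2 => h.odd (hS h2)) (by have := hp.two_le; omega)
    (hp.even_sub_one fun h2 => h.odd (h2 ▸ hS hs)) h1 (by linarith) (by
      have : ∑ r ∈ S, Real.log r ≤ S.card • Z := sum_le_card_nsmul _ _ _ fun r hr => h.le_prod hS hr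
      rw [nsmul_eq_mul] at this
      rw [hcast]
      linarith [mul_le_mul_of_nonneg_right hcS (zero_le_one.trans hZ1),
        mul_le_mul_of_nonneg_right hR1 (zero_le_one.trans hZ1),
        mul_nonneg hk (zero_le_one.trans hZ1)]) (by linarith) (fun t ht => by
      have b1 : |((Δ * a s t : ℤ) : ℝ)| ≤ D * H := by
        rw [Int.cast_mul, abs_mul, Int.cast_natCast, Nat.abs_cast]
        exact mul_le_mul h2 (h.a_le (hS hs) (hS ht)) (Nat.cast_nonneg _) hD0.le
      have b2 : |((∑ i ∈ V \ S, c i * a i t : ℤ) : ℝ)| ≤ V.card * (D * H) := by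
        rw [Int.cast_sum]
        refine (abs_sum_le_sum_abs _ _).trans ((sum_le_card_nsmul _ _ (D * H) fun i hi => ?_).trans ?_)
        · rw [Int.cast_mul, abs_mul, Int.cast_natCast, Nat.abs_cast]
          exact mul_le_mul (h3 i hi) (h.a_le (sdiff_subset hi) (hS ht)) (Nat.cast_nonneg _) hD0.le
        · rw [nsmul_eq_mul]
          exact mul_le_mul_of_nonneg_right (by exact_mod_cast card_le_card sdiff_subset)
            (by positivity)
      have b3 : |((if t = s then Δ * (e s + 1) else 0 : ℤ) : ℝ)| ≤ D * H := by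
        split_ifs
        · push_cast
          rw [abs_mul, abs_of_nonneg (by positivity : (0 : ℝ) ≤ e s + 1)]
          exact mul_le_mul h2 (h.e_le (hS hs)) (by positivity) hD0.le
        · rw [Int.cast_zero, abs_zero]
          positivity
      rw [Int.cast_sub, Int.cast_add]
      have b4 := (abs_sub _ _).trans (add_le_add ((abs_add_le _ _).trans (add_le_add b1 b2)) b3)
      have b5 : 0 ≤ D * H := by positivity
      refine b4.trans (le_trans ?_ (hR.trans hEZ))
      linarith [mul_nonneg hk b5])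
  rw [hcast, form hS hs h4, ← hZ] at key
  have hG2 : C ^ (S.card + 2) * (Real.log ((s : ℝ) - 1) * Z) * (R * Z) ^ 12 ≤ G := by
    have : C ^ (S.card + 2) ≤ C ^ (V.card + 2) :=
      pow_le_pow_right₀ hC (by have := card_le_card hS; omega)
    have h0 : 0 ≤ Real.log ((s : ℝ) - 1) := Real.log_nonneg (by linarith)
    calc _ ≤ C ^ (V.card + 2) * (Z * Z) * (R * Z) ^ 12 := by gcongr
      _ = G := by rw [hG]; ring
  set X := (s : ℝ) ^ (e s + 1) with hX
  have hX0 : 0 < X := by positivity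
  have h6 : Real.exp (-G) ≤ D * (2 / X) + V.card * D / (4 * (D * ((V.card + 1) * H)) * Real.exp G) := by
    refine ((Real.exp_le_exp.2 (neg_le_neg hG2)).trans key).trans
      ((abs_add_le _ _).trans (add_le_add ?_ h5))
    rw [abs_mul]
    exact mul_le_mul h2 (h.eta_near (hS hs)) (abs_nonneg _) hD0.le
  have h7 : V.card * D / (4 * (D * ((V.card + 1) * H)) * Real.exp G) ≤ Real.exp (-G) / 4 := by
    rw [Real.exp_neg, div_le_iff₀ (by positivity)]
    have : (Real.exp G)⁻¹ / 4 * (4 * (D * ((V.card + 1) * H)) * Real.exp G) =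
        D * ((V.card + 1) * H) := by field_simp
    rw [this]
    linarith
  have h8 : 3 * X ≤ 8 * D * Real.exp G := by
    have h9 : 3 / 4 * Real.exp (-G) ≤ D * (2 / X) := by linarith
    rw [Real.exp_neg, ← mul_div_assoc, le_div_iff₀ hX0] at h9
    have h10 := mul_le_mul_of_nonneg_right h9 (Real.exp_pos G).le
    have : 3 / 4 * (Real.exp G)⁻¹ * X * Real.exp G = 3 / 4 * X := by field_simp
    rw [this] at h10
    linarith
  have h9 : X < Real.exp U := by
    have : 8 * D ≤ Real.exp R := by linarith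
    have := mul_le_mul_of_nonneg_right this (Real.exp_pos G).le
    linarith
  have h10 := (Real.log_lt_iff_lt_exp hX0).2 h9
  rw [hX, Real.log_pow] at h10
  exact_mod_cast h10

theorem bound (h : Sys V e a H) (hH : 1 ≤ H) (hne : V.Nonempty)
    (hmin : ∀ S ⊆ V, S.Nonempty → (∀ s ∈ S, ∀ q ∈ V \ S, a s q = 0) → S = V)
    {C : ℝ} (hC : 1 ≤ C) (hB : BakStmt C) {R : ℝ} (hR1 : 2 * V.card + 2 ≤ R)
    (hR : 8 * ((V.card + 1) * H) ^ (V.card + 1) ≤ Real.exp R) {p : ℕ} (hp : p ∈ V) :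
    (e p + 1 : ℝ) * Real.log p ≤ (2 * C ^ (V.card + 2) * R ^ 13) ^ 15 ^ (V.card + 1) := by
  classical
  set B := 2 * C ^ (V.card + 2) * R ^ 13 with hBd
  have hk : (0 : ℝ) ≤ V.card := Nat.cast_nonneg _
  have hR0 : 1 ≤ R := by linarith
  have hC1 : 1 ≤ C ^ (V.card + 2) := one_le_pow₀ hC
  have hR12 : 1 ≤ R ^ 12 := one_le_pow₀ hR0
  have hB1 : 1 ≤ B := by
    have := one_le_mul_of_one_le_of_one_le hC1 (one_le_pow₀ hR0 (n := 13))
    rw [hBd]
    linarith
  have hU : ∀ Z : ℝ, 1 ≤ Z → R + C ^ (V.card + 2) * R ^ 12 * Z ^ 14 ≤ B * Z ^ 14 := by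
    intro Z hZ
    have h1 : 1 ≤ C ^ (V.card + 2) * R ^ 12 * Z ^ 14 := one_le_mul_of_one_le_of_one_le
      (one_le_mul_of_one_le_of_one_le hC1 hR12) (one_le_pow₀ hZ)
    have h2 : B * Z ^ 14 = 2 * R * (C ^ (V.card + 2) * R ^ 12 * Z ^ 14) := by rw [hBd]; ring
    rw [h2]
    nlinarith
  have ind : ∀ j ≤ V.card, ∃ S ⊆ V, S.card = j ∧ B * ∏ t ∈ S, Real.log t ≤ B ^ 15 ^ j := by
    intro j
    induction j with
    | zero => exact fun _ => ⟨∅, empty_subset _, rfl, by simp⟩
    | succ j ih =>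
      intro hj
      obtain ⟨S, hS, hc, hZ⟩ := ih (by omega)
      have hZ1 : 1 ≤ ∏ t ∈ S, Real.log t := one_le_prod fun t ht => h.log1 (hS ht)
      obtain ⟨q, hq, hlt⟩ : ∃ q ∈ V \ S, Real.log q < B * (∏ t ∈ S, Real.log t) ^ 14 := by
        rcases S.eq_empty_or_nonempty with rfl | hSne
        · obtain ⟨q, hq, hlt⟩ := h.least hH hne hR
          refine ⟨q, by simpa using hq, hlt.trans_le (le_trans ?_ (hU _ hZ1))⟩
          exact le_add_of_nonneg_right (by positivity)
        · by_contra hcon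
          push Not at hcon
          have := hmin S hS hSne fun s hs q hq => by
            by_contra h0
            have h1 := h.step hH hC hB hS hs hR1 hR (hU _ hZ1) hcon
            have h2 := h.a_log (hS hs) (sdiff_subset hq)
            have h3 : (1 : ℝ) ≤ a s q := by exact_mod_cast Nat.one_le_iff_ne_zero.2 h0
            have h4 := hcon q hq
            have h5 := Real.log_natCast_nonneg q
            nlinarith
          rw [this] at hc
          omega
      obtain ⟨hqV, hqS⟩ := mem_sdiff.1 hq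
      refine ⟨insert q S, insert_subset hqV hS, by rw [card_insert_of_notMem hqS, hc], ?_⟩
      rw [prod_insert hqS, pow_succ, pow_mul]
      have hB2 : B ^ 2 ≤ B ^ 15 := pow_le_pow_right₀ hB1 (by norm_num)
      calc B * (Real.log q * ∏ t ∈ S, Real.log t)
          ≤ B * (B * (∏ t ∈ S, Real.log t) ^ 14 * ∏ t ∈ S, Real.log t) := by gcongr
        _ = B ^ 2 * (∏ t ∈ S, Real.log t) ^ 15 := by ring
        _ ≤ B ^ 15 * (∏ t ∈ S, Real.log t) ^ 15 := by gcongr
        _ = (B * ∏ t ∈ S, Real.log t) ^ 15 := (mul_pow _ _ _).symm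
        _ ≤ _ := by gcongr
  obtain ⟨S, hS, hc, hZ⟩ := ind V.card le_rfl
  obtain rfl : S = V := eq_of_subset_of_card_le hS hc.ge
  have hZ1 : 1 ≤ ∏ t ∈ S, Real.log t := one_le_prod fun t ht => h.log1 ht
  refine (h.step hH hC hB subset_rfl hp hR1 hR (hU _ hZ1) (by simp)).le.trans ?_
  rw [pow_succ 15, pow_mul]
  have hB2 : B ≤ B ^ 15 := le_self_pow₀ hB1 (by norm_num)
  have hZ2 : (∏ t ∈ S, Real.log t) ^ 14 ≤ (∏ t ∈ S, Real.log t) ^ 15 :=
    pow_le_pow_right₀ hZ1 (by norm_num)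
  calc B * (∏ t ∈ S, Real.log t) ^ 14 ≤ B ^ 15 * (∏ t ∈ S, Real.log t) ^ 15 := by gcongr
    _ = (B * ∏ t ∈ S, Real.log t) ^ 15 := (mul_pow _ _ _).symm
    _ ≤ _ := by gcongr

end Sys

end Pool.Agent.MP_bd9ace_nt.H98
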