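import Mathlib

/-! The system of equations of a closed set of odd prime powers, and the elimination of the large
primes. -/

namespace Pool.Agent.MP_bd9ace_nt.H98

open Finset

/-- the system of equations -/
structure Sys (V : Finset ℕ) (e : ℕ → ℕ) (a : ℕ → ℕ → ℕ) (H : ℝ) : Prop where
  prime : ∀ p ∈ V, p.Prime
  odd : 2 ∉ V
  pos : ∀ p ∈ V, 1 ≤ e p
  eq : ∀ p ∈ V, (p - 1) * ∏ q ∈ V, q ^ a p q + 1 = p ^ (e p + 1)
  bd : ∀ p ∈ V, (e p + 1 : ℝ) * Real.log p ≤ H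

/-- the logarithm of the abundancy of a prime power -/
noncomputable def eta (V : Finset ℕ) (e : ℕ → ℕ) (a : ℕ → ℕ → ℕ) (p : ℕ) : ℝ :=
  ∑ q ∈ V, (a p q : ℝ) * Real.log q - e p * Real.log p

namespace Sys

variable {V : Finset ℕ} {e : ℕ → ℕ} {a : ℕ → ℕ → ℕ} {H : ℝ}

theorem three (h : Sys V e a H) {p : ℕ} (hp : p ∈ V) : (3 : ℝ) ≤ p := by
  have h1 := (h.prime p hp).two_le
  have h2 : p ≠ 2 := fun h2 => h.odd (h2 ▸ hp)
  exact_mod_cast (by omega : 3 ≤ p)

theorem log1 (h : Sys V e a H) {p : ℕ} (hp : p ∈ V) : 1 ≤ Real.log p := by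
  have h3 := h.three hp
  rw [Real.le_log_iff_exp_le (by linarith)]
  linarith [Real.exp_one_lt_d9]

theorem real (h : Sys V e a H) {p : ℕ} (hp : p ∈ V) :
    ∃ s : ℝ, 0 < s ∧ Real.log s = ∑ q ∈ V, (a p q : ℝ) * Real.log q ∧
      ((p : ℝ) - 1) * s + 1 = (p : ℝ) ^ (e p + 1) := by
  refine ⟨∏ q ∈ V, (q : ℝ) ^ a p q, prod_pos fun q hq => pow_pos (by linarith [h.three hq]) _,
    ?_, ?_⟩
  · rw [Real.log_prod fun q hq => pow_ne_zero _ (by linarith [h.three hq])]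
    exact sum_congr rfl fun q _ => Real.log_pow _ _
  · have := congrArg (Nat.cast : ℕ → ℝ) (h.eq p hp)
    push_cast [Nat.cast_sub (h.prime p hp).one_le] at this
    exact this

theorem eta_pos (h : Sys V e a H) {p : ℕ} (hp : p ∈ V) : 0 < eta V e a p := by
  obtain ⟨s, hs, h1, h2⟩ := h.real hp
  have h3 := h.three hp
  have h4 : (1 : ℝ) < (p : ℝ) ^ e p := one_lt_pow₀ (by linarith) (by have := h.pos p hp; omega)
  rw [eta, ← h1, ← Real.log_pow, sub_pos]
  refine Real.log_lt_log (by linarith) ?_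
  rw [pow_succ] at h2
  by_contra hc
  have := mul_le_mul_of_nonneg_left (not_lt.1 hc) (by linarith : (0 : ℝ) ≤ p - 1)
  nlinarith

theorem eta_le (h : Sys V e a H) {p : ℕ} (hp : p ∈ V) : eta V e a p ≤ 1 / (p - 1) := by
  obtain ⟨s, hs, h1, h2⟩ := h.real hp
  have h3 := h.three hp
  have h4 : (0 : ℝ) < (p : ℝ) ^ e p := by positivity
  rw [eta, ← h1, ← Real.log_pow, ← Real.log_div hs.ne' h4.ne']
  refine (Real.log_le_sub_one_of_pos (by positivity)).trans ?_
  rw [le_div_iff₀ (by linarith), sub_mul, div_mul_eq_mul_div, sub_le_iff_le_add, div_le_iff₀ h4]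
  rw [pow_succ] at h2
  nlinarith

theorem eta_near (h : Sys V e a H) {p : ℕ} (hp : p ∈ V) :
    |eta V e a p + Real.log ((p : ℝ) - 1) - Real.log p| ≤ 2 / (p : ℝ) ^ (e p + 1) := by
  obtain ⟨s, hs, h1, h2⟩ := h.real hp
  have h3 := h.three hp
  set X := (p : ℝ) ^ (e p + 1) with hX
  have h4 : (p : ℝ) ≤ X := le_self_pow₀ (by linarith) (by omega)
  have h5 : eta V e a p + Real.log ((p : ℝ) - 1) - Real.log p = -Real.log (X / (X - 1)) := by
    rw [eta, ← h1, Real.log_div (by linarith) (by linarith), show X - 1 = (p - 1) * s by linarith,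
      Real.log_mul (by linarith) hs.ne', hX, Real.log_pow]
    push_cast
    ring
  have h6 : 1 ≤ X / (X - 1) := by rw [le_div_iff₀ (by linarith)]; linarith
  rw [h5, abs_neg, abs_of_nonneg (Real.log_nonneg h6)]
  refine (Real.log_le_sub_one_of_pos (by linarith)).trans ?_
  rw [div_sub_one (by linarith), div_le_div_iff₀ (by linarith) (by linarith)]
  nlinarith

theorem a_log (h : Sys V e a H) {p q : ℕ} (hp : p ∈ V) (hq : q ∈ V) :
    (a p q : ℝ) * Real.log q ≤ (e p + 1 : ℝ) * Real.log p := by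
  have h1 : (a p q : ℝ) * Real.log q ≤ ∑ q ∈ V, (a p q : ℝ) * Real.log q :=
    single_le_sum (f := fun q => (a p q : ℝ) * Real.log q)
      (fun r _ => mul_nonneg (Nat.cast_nonneg _) (Real.log_natCast_nonneg r)) hq
  have h2 := h.eta_le hp
  have h3 := h.three hp
  have h4 : 1 / ((p : ℝ) - 1) ≤ 1 := by rw [div_le_one (by linarith)]; linarith
  have h5 := h.log1 hp
  rw [eta] at h2
  linarith

theorem a_le (h : Sys V e a H) {p q : ℕ} (hp : p ∈ V) (hq : q ∈ V) : (a p q : ℝ) ≤ H := by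
  have h1 := h.a_log hp hq
  have h2 := h.log1 hq
  have h3 := h.bd p hp
  have h4 : (0 : ℝ) ≤ a p q := Nat.cast_nonneg _
  nlinarith

theorem e_le (h : Sys V e a H) {p : ℕ} (hp : p ∈ V) : (e p + 1 : ℝ) ≤ H := by
  have h2 := h.log1 hp
  have h3 := h.bd p hp
  have h4 : (0 : ℝ) ≤ e p := Nat.cast_nonneg _
  nlinarith

/-- linear combinations of the rows -/
theorem comb {L : Finset ℕ} (hL : L ⊆ V) (c : ℕ → ℤ) :
    ∑ i ∈ L, (c i : ℝ) * eta V e a i =
      ∑ q ∈ L, ((∑ i ∈ L, c i * a i q - c q * e q : ℤ) : ℝ) * Real.log q +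
        ∑ q ∈ V \ L, ((∑ i ∈ L, c i * a i q : ℤ) : ℝ) * Real.log q := by
  simp only [eta, mul_sub, sum_sub_distrib, mul_sum, Int.cast_sub, Int.cast_sum, Int.cast_mul,
    Int.cast_natCast, sub_mul, sum_mul]
  rw [sum_comm, ← sum_sdiff hL]
  simp only [mul_assoc]
  ring

theorem gap (h : Sys V e a H) {T : Finset ℕ} (hT : T ⊆ V) (w : ℕ → ℤ) (hw : ∀ q ∈ T, 0 ≤ w q) :
    ∑ q ∈ T, (w q : ℝ) * Real.log q = 0 ∨ 1 ≤ ∑ q ∈ T, (w q : ℝ) * Real.log q := by
  by_cases h0 : ∀ q ∈ T, w q = 0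
  · exact Or.inl (sum_eq_zero fun q hq => by rw [h0 q hq]; simp)
  · push Not at h0
    obtain ⟨q, hq, h1⟩ := h0
    refine Or.inr (le_trans ?_ (single_le_sum (f := fun q => (w q : ℝ) * Real.log q)
      (fun r hr => mul_nonneg (by exact_mod_cast hw r hr) (Real.log_natCast_nonneg r)) hq))
    have h2 : (1 : ℝ) ≤ w q := by
      have := hw q hq
      exact_mod_cast (by omega : 1 ≤ w q)
    exact one_le_mul_of_one_le_of_one_le h2 (h.log1 (hT hq))

/-- a combination of the small quantities is small -/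
theorem small (h : Sys V e a H) {L : Finset ℕ} (hL : L ⊆ V) {c : ℕ → ℤ} {D Y : ℝ} (hD : 0 ≤ D)
    (hY : 0 < Y) (hc : ∀ i ∈ L, |(c i : ℝ)| ≤ D) (hq : ∀ q ∈ L, Y ≤ (q : ℝ) - 1) :
    |∑ i ∈ L, (c i : ℝ) * eta V e a i| ≤ V.card * D / Y := by
  refine (abs_sum_le_sum_abs _ _).trans ((sum_le_card_nsmul _ _ (D / Y) fun i hi => ?_).trans ?_)
  · rw [abs_mul, abs_of_pos (h.eta_pos (hL hi)), div_eq_mul_one_div]
    exact mul_le_mul (hc i hi) ((h.eta_le (hL hi)).trans (one_div_le_one_div_of_le hY (hq i hi)))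
      (h.eta_pos (hL hi)).le hD
  · rw [nsmul_eq_mul, mul_div_assoc]
    exact mul_le_mul_of_nonneg_right (by exact_mod_cast card_le_card hL) (by positivity)

theorem nonpos (h : Sys V e a H) {L : Finset ℕ} (hL : L ⊆ V) {c : ℕ → ℤ} {D Y : ℝ} (hD : 0 ≤ D)
    (hY : V.card * D < Y) (hc : ∀ i ∈ L, |(c i : ℝ)| ≤ D) (hq : ∀ q ∈ L, Y ≤ (q : ℝ) - 1)
    (hr : ∀ j ∈ L, ∑ i ∈ L, c i * a i j = c j * e j) : ∀ i ∈ L, c i ≤ 0 := by
  intro i hi
  by_contra hci
  have hY0 : 0 < Y := lt_of_le_of_lt (by positivity) hY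
  have h1 := h.small hL (c := fun i => max (c i) 0) hD hY0 (fun j hj => by
    rcases le_total (c j) 0 with h' | h'
    · simpa [max_eq_right h'] using hD
    · simpa [max_eq_left h'] using hc j hj) hq
  have h2 : V.card * D / Y < 1 := (div_lt_one hY0).2 hY
  have h3 : 0 < ∑ i ∈ L, ((max (c i) 0 : ℤ) : ℝ) * eta V e a i := by
    refine sum_pos' (fun j hj => mul_nonneg (by exact_mod_cast le_max_right _ _)
      (h.eta_pos (hL hj)).le) ⟨i, hi, mul_pos ?_ (h.eta_pos (hL hi))⟩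
    exact_mod_cast lt_max_of_lt_left (not_le.1 hci)
  have h4 := (le_abs_self _).trans h1
  rw [comb hL] at h3 h4
  have h5 := h.gap hL (fun q => ∑ i ∈ L, max (c i) 0 * a i q - max (c q) 0 * e q) fun q hq => by
    rcases le_total (c q) 0 with h' | h'
    · rw [max_eq_right h', zero_mul, sub_zero]
      exact sum_nonneg fun j _ => mul_nonneg (le_max_right _ _) (Int.natCast_nonneg _)
    · rw [max_eq_left h', ← hr q hq, sub_nonneg]
      exact sum_le_sum fun j _ => mul_le_mul_of_nonneg_right (le_max_left _ _)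
        (Int.natCast_nonneg _)
  have h6 := h.gap (sdiff_subset (t := L)) (fun q => ∑ i ∈ L, max (c i) 0 * a i q) fun q _ =>
    sum_nonneg fun j _ => mul_nonneg (le_max_right _ _) (Int.natCast_nonneg _)
  rcases h5 with h5 | h5 <;> rcases h6 with h6 | h6 <;> linarith

end Sys

attribute [local instance] Matrix.seminormedAddCommGroup in
/-- the lemma of Siegel with one more unknown than equations -/
theorem siegel (L : Finset ℕ) (u : ℕ → ℤ) (M : ℕ → ℕ → ℤ) {H : ℝ} (hH : 1 ≤ H)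
    (hu : ∀ j ∈ L, |(u j : ℝ)| ≤ H) (hM : ∀ i ∈ L, ∀ j ∈ L, |(M i j : ℝ)| ≤ H) :
    ∃ (Δ : ℤ) (c : ℕ → ℤ), (Δ ≠ 0 ∨ ∃ i ∈ L, c i ≠ 0) ∧
      |(Δ : ℝ)| ≤ ((L.card + 1) * H) ^ L.card ∧
      (∀ i ∈ L, |(c i : ℝ)| ≤ ((L.card + 1) * H) ^ L.card) ∧
      ∀ j ∈ L, Δ * u j + ∑ i ∈ L, c i * M i j = 0 := by
  classical
  rcases L.eq_empty_or_nonempty with rfl | hne
  · exact ⟨1, 0, Or.inl one_ne_zero, by simp, by simp, by simp⟩
  let A : Matrix L (Option L) ℤ := fun j o => o.elim (u j) fun i => M i j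
  obtain ⟨t, h0, h1, h2⟩ := Int.Matrix.exists_ne_zero_int_vec_norm_le A (by simp)
    (by simpa using hne)
  have hA : ‖A‖ ≤ H := by
    rw [Matrix.norm_le_iff (by linarith)]
    rintro j (_ | i)
    · exact hu j j.2
    · exact hM i i.2 j j.2
  have h3 : ‖t‖ ≤ ((L.card + 1) * H) ^ L.card := by
    refine h2.trans ?_
    simp only [Fintype.card_option, Fintype.card_coe, Nat.cast_add, Nat.cast_one,
      add_sub_cancel_left, div_one, Real.rpow_natCast]
    exact pow_le_pow_left₀ (by positivity)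
      (mul_le_mul_of_nonneg_left (max_le hH hA) (by positivity)) _
  refine ⟨t none, fun i => if h : i ∈ L then t (some ⟨i, h⟩) else 0, ?_,
    (norm_le_pi_norm t none).trans h3, fun i hi => ?_, fun j hj => ?_⟩
  · obtain ⟨o, ho⟩ := Function.ne_iff.1 h0
    rcases o with _ | i
    · exact Or.inl ho
    · exact Or.inr ⟨i, i.2, by simpa using ho⟩
  · simp only [dif_pos hi]
    exact (norm_le_pi_norm t _).trans h3
  · have := congrFun h1 ⟨j, hj⟩
    simp only [Matrix.mulVec, dotProduct, Fintype.sum_option, A, Option.elim, Pi.zero_apply]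
      at this
    refine Eq.trans ?_ this
    rw [← sum_coe_sort L, mul_comm]
    congr 1
    exact sum_congr rfl fun i _ => by simp only [dif_pos i.2]; rw [mul_comm]

theorem Sys.elim {V : Finset ℕ} {e : ℕ → ℕ} {a : ℕ → ℕ → ℕ} {H : ℝ} (h : Sys V e a H)
    (hH : 1 ≤ H) {L : Finset ℕ} (hL : L ⊆ V) (u : ℕ → ℤ) (hu : ∀ j ∈ L, |(u j : ℝ)| ≤ H) {D Y : ℝ}
    (hD : ((V.card + 1) * H) ^ V.card ≤ D) (hY : V.card * D < Y)
    (hq : ∀ q ∈ L, Y ≤ (q : ℝ) - 1) :
    ∃ (Δ : ℤ) (c : ℕ → ℤ), Δ ≠ 0 ∧ |(Δ : ℝ)| ≤ D ∧ (∀ i ∈ L, |(c i : ℝ)| ≤ D) ∧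
      ∀ j ∈ L, Δ * u j + (∑ i ∈ L, c i * a i j - c j * e j) = 0 := by
  classical
  obtain ⟨Δ, c, h1, h2, h3, h4⟩ := siegel L u (fun i j => a i j - if i = j then e j else 0) hH hu
    (fun i hi j hj => by
      have a1 := h.a_le (hL hi) (hL hj)
      have a2 := h.e_le (hL hj)
      have a3 : (0 : ℝ) ≤ a i j := Nat.cast_nonneg _
      have a4 : (0 : ℝ) ≤ e j := Nat.cast_nonneg _
      split_ifs <;> push_cast <;> rw [abs_le] <;> constructor <;> linarith)
  have hc : (L.card : ℝ) ≤ V.card := by exact_mod_cast card_le_card hL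
  have hc0 : (0 : ℝ) ≤ L.card := Nat.cast_nonneg _
  have hD' : ((L.card + 1) * H) ^ L.card ≤ D :=
    ((pow_le_pow_left₀ (by positivity) (mul_le_mul_of_nonneg_right (by linarith) (by linarith))
      _).trans (pow_le_pow_right₀ (by nlinarith) (card_le_card hL))).trans hD
  have hD0 : 0 ≤ D := le_trans (by positivity) hD
  have h5 : ∀ j ∈ L, Δ * u j + (∑ i ∈ L, c i * a i j - c j * e j) = 0 := fun j hj => by
    rw [← h4 j hj]
    simp only [mul_sub, sum_sub_distrib, mul_ite, mul_zero, Nat.cast_ite, Nat.cast_zero,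
      sum_ite_eq', if_pos hj]
  have h6 : ∀ i ∈ L, |(c i : ℝ)| ≤ D := fun i hi => (h3 i hi).trans hD'
  refine ⟨Δ, c, fun h0 => ?_, h2.trans hD', h6, h5⟩
  obtain ⟨i, hi, hci⟩ := h1.resolve_left (not_not.2 h0)
  have h7 : ∀ j ∈ L, ∑ i ∈ L, c i * a i j = c j * e j := fun j hj => by
    have := h5 j hj
    rw [h0, zero_mul, zero_add, sub_eq_zero] at this
    exact this
  have h8 := h.nonpos hL hD0 hY h6 hq h7 i hi
  have h9 := h.nonpos hL (c := fun i => -c i) hD0 hY (fun i hi => by simpa using h6 i hi) hq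
    (fun j hj => by simp only [neg_mul, sum_neg_distrib, h7 j hj]) i hi
  exact hci (by linarith)

end Pool.Agent.MP_bd9ace_nt.H98
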